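import Pool.Agent.L5helper87.RK.Defs

/-!
# Deterministic programs: the computations are cut at the levels of a potential
-/

set_option autoImplicit false
set_option linter.unusedSectionVars false

open Finset

namespace Pool.Agent.L5helper87.RK

open Pool.Agent.L5helper60.DN

variable {V : Type} [DecidableEq V] [Fintype V]

/-- the maximal number of tests of `v` on a path from the node `i` -/
noncomputable def cnt (P : BProg V) (v : V) (i : Fin P.size) : ℕ :=
  match h : P.node i with
  | .inl _ => 0
  | .inr (w, j, k) => (if w = v then 1 else 0) + max (cnt P v j) (cnt P v k)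
termination_by i
decreasing_by
  · exact (P.lt i w j k h).1
  · exact (P.lt i w j k h).2

theorem cnt_sink {P : BProg V} (v : V) {i : Fin P.size} {b : Bool} (h : P.node i = .inl b) :
    cnt P v i = 0 := by
  rw [cnt]
  split
  · rfl
  · rename_i h'
    rw [h] at h'
    cases h'

theorem cnt_node {P : BProg V} (v : V) {i j k : Fin P.size} {w : V}
    (h : P.node i = .inr (w, j, k)) :
    cnt P v i = (if w = v then 1 else 0) + max (cnt P v j) (cnt P v k) := by
  rw [cnt]
  split
  · rename_i h'
    rw [h] at h'
    cases h'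
  · rename_i w' j' k' h'
    rw [h] at h'
    simp only [Sum.inr.injEq, Prod.mk.injEq] at h'
    obtain ⟨rfl, rfl, rfl⟩ := h'
    rfl

theorem exists_path (P : BProg V) (v : V) : ∀ i : Fin P.size,
    ∃ l, BPath P i l ∧ l.count v = cnt P v i := by
  intro i
  induction i using WellFoundedLT.induction with
  | ind i ih =>
    rcases h : P.node i with b | ⟨w, j, k⟩
    · exact ⟨[], .nil i, by rw [cnt_sink v h]; rfl⟩
    · obtain ⟨h1, h2⟩ := P.lt i w j k h
      rw [cnt_node v h]
      rcases le_total (cnt P v j) (cnt P v k) with hle | hle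
      · obtain ⟨l, hl, hc⟩ := ih k h2
        refine ⟨w :: l, .right h hl, ?_⟩
        rw [List.count_cons, hc, max_eq_right hle]
        by_cases hw : w = v
        · simp [hw]; omega
        · simp [hw]
      · obtain ⟨l, hl, hc⟩ := ih j h1
        refine ⟨w :: l, .left h hl, ?_⟩
        rw [List.count_cons, hc, max_eq_left hle]
        by_cases hw : w = v
        · simp [hw]; omega
        · simp [hw]

theorem ReadTimes.cnt_le {P : BProg V} {k : ℕ} {o : Fin P.size} (h : ReadTimes P k o) (v : V) :
    cnt P v o ≤ k := by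
  obtain ⟨l, h1, h2⟩ := exists_path P v o
  rw [← h2]
  exact h l h1 v

/-- the computation on `S` which starts at the first node visits the second one -/
inductive Run (P : BProg V) (S : Finset V) : Fin P.size → Fin P.size → Prop
  | refl (i : Fin P.size) : Run P S i i
  | one {i j k w : Fin P.size} {v : V} (h : P.node i = .inr (v, j, k)) (hv : v ∈ S)
      (hj : Run P S j w) : Run P S i w
  | zero {i j k w : Fin P.size} {v : V} (h : P.node i = .inr (v, j, k)) (hv : v ∉ S)
      (hk : Run P S k w) : Run P S i w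

/-- there is a path -/
inductive Way (P : BProg V) : Fin P.size → Fin P.size → Prop
  | refl (i : Fin P.size) : Way P i i
  | left {i j k w : Fin P.size} {v : V} (h : P.node i = .inr (v, j, k)) (hj : Way P j w) :
      Way P i w
  | right {i j k w : Fin P.size} {v : V} (h : P.node i = .inr (v, j, k)) (hk : Way P k w) :
      Way P i w

/-- `x` is tested on a path between the nodes -/
inductive On (P : BProg V) (x : V) : Fin P.size → Fin P.size → Prop
  | here1 {i j k w : Fin P.size} (h : P.node i = .inr (x, j, k)) (hj : Way P j w) : On P x i w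
  | here2 {i j k w : Fin P.size} (h : P.node i = .inr (x, j, k)) (hk : Way P k w) : On P x i w
  | left {i j k w : Fin P.size} {v : V} (h : P.node i = .inr (v, j, k)) (hj : On P x j w) :
      On P x i w
  | right {i j k w : Fin P.size} {v : V} (h : P.node i = .inr (v, j, k)) (hk : On P x k w) :
      On P x i w

theorem Run.way {P : BProg V} {S : Finset V} {i w : Fin P.size} (h : Run P S i w) :
    Way P i w := by
  induction h with
  | refl i => exact .refl i
  | one h _ _ ih => exact .left h ih
  | zero h _ _ ih => exact .right h ih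

theorem Way.cnt_le {P : BProg V} {i w : Fin P.size} (h : Way P i w) (v : V) :
    cnt P v w ≤ cnt P v i := by
  induction h with
  | refl i => exact le_rfl
  | left h _ ih => rw [cnt_node v h]; omega
  | right h _ ih => rw [cnt_node v h]; omega

theorem On.cnt_lt {P : BProg V} {i w : Fin P.size} {x : V} (h : On P x i w) :
    cnt P x w + 1 ≤ cnt P x i := by
  induction h with
  | here1 h hj => have := hj.cnt_le x; rw [cnt_node x h, if_pos rfl]; omega
  | here2 h hj => have := hj.cnt_le x; rw [cnt_node x h, if_pos rfl]; omega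
  | left h _ ih => rw [cnt_node x h]; omega
  | right h _ ih => rw [cnt_node x h]; omega

theorem Run.congr {P : BProg V} {S S' : Finset V} {i w : Fin P.size} (h : Run P S i w)
    (hS : ∀ x, On P x i w → (x ∈ S ↔ x ∈ S')) : Run P S' i w := by
  induction h with
  | refl i => exact .refl i
  | one h hv hj ih =>
    exact .one h ((hS _ (.here1 h hj.way)).1 hv) (ih fun x hx => hS x (.left h hx))
  | zero h hv hk ih =>
    exact .zero h (fun h' => hv ((hS _ (.here2 h hk.way)).2 h'))
      (ih fun x hx => hS x (.right h hx))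

theorem Run.lin {P : BProg V} {S : Finset V} {i w w' : Fin P.size} (h : Run P S i w)
    (h' : Run P S i w') : Run P S w w' ∨ Run P S w' w := by
  induction h with
  | refl i => exact Or.inl h'
  | one h hv hj ih =>
    cases h' with
    | refl => exact Or.inr (.one h hv hj)
    | one h2 hv2 hj2 =>
      rw [h] at h2
      simp only [Sum.inr.injEq, Prod.mk.injEq] at h2
      obtain ⟨rfl, rfl, rfl⟩ := h2
      exact ih hj2
    | zero h2 hv2 hk2 =>
      rw [h] at h2
      simp only [Sum.inr.injEq, Prod.mk.injEq] at h2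
      obtain ⟨rfl, rfl, rfl⟩ := h2
      exact absurd hv hv2
  | zero h hv hk ih =>
    cases h' with
    | refl => exact Or.inr (.zero h hv hk)
    | one h2 hv2 hj2 =>
      rw [h] at h2
      simp only [Sum.inr.injEq, Prod.mk.injEq] at h2
      obtain ⟨rfl, rfl, rfl⟩ := h2
      exact absurd hv2 hv
    | zero h2 hv2 hk2 =>
      rw [h] at h2
      simp only [Sum.inr.injEq, Prod.mk.injEq] at h2
      obtain ⟨rfl, rfl, rfl⟩ := h2
      exact ih hk2

theorem acc_congr {P : BProg V} {S S' : Finset V} {i : Fin P.size} (h : P.Accepts S i)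
    (hS : ∀ x, 1 ≤ cnt P x i → (x ∈ S ↔ x ∈ S')) : P.Accepts S' i := by
  induction h with
  | sink h => exact .sink h
  | one h hv hj ih =>
    refine .one h ((hS _ ?_).1 hv) (ih fun x hx => hS x ?_)
    · rw [cnt_node _ h, if_pos rfl]; omega
    · rw [cnt_node _ h]; omega
  | zero h hv hk ih =>
    refine .zero h (fun h' => hv ((hS _ ?_).2 h')) (ih fun x hx => hS x ?_)
    · rw [cnt_node _ h, if_pos rfl]; omega
    · rw [cnt_node _ h]; omega

/-- the potential of a node -/
noncomputable def pot (P : BProg V) (D : Finset V) (i : Fin P.size) : ℕ := ∑ v ∈ D, cnt P v i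

theorem Way.pot_le {P : BProg V} {D : Finset V} {i w : Fin P.size} (h : Way P i w) :
    pot P D w ≤ pot P D i := Finset.sum_le_sum fun v _ => h.cnt_le v

open Classical in
theorem Way.pot_add {P : BProg V} {D : Finset V} {i w : Fin P.size} (h : Way P i w) :
    pot P D w + (D.filter fun x => On P x i w).card ≤ pot P D i := by
  unfold pot
  rw [Finset.card_filter, ← Finset.sum_add_distrib]
  refine Finset.sum_le_sum fun x _ => ?_
  split_ifs with hx
  · exact hx.cnt_lt
  · exact h.cnt_le x

/-- `(w, b)` is an arc which crosses the level `c`, it leads from a node with the vertex `v` to the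
node `j` -/
def Cross (P : BProg V) (D : Finset V) (c : ℕ) (w : Fin P.size) (b : Bool) (v : V)
    (j : Fin P.size) : Prop :=
  (∃ j' k', P.node w = .inr (v, j', k') ∧ j = if b then j' else k') ∧ c < pot P D w ∧
    pot P D j ≤ c

theorem pot_sink {P : BProg V} {D : Finset V} {i : Fin P.size} {b : Bool}
    (h : P.node i = .inl b) : pot P D i = 0 :=
  Finset.sum_eq_zero fun v _ => cnt_sink v h

/-- every computation crosses the level -/
theorem exists_cross (P : BProg V) (D : Finset V) (c : ℕ) (S : Finset V) : ∀ i : Fin P.size,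
    c < pot P D i → ∃ w b v j, Cross P D c w b v j ∧ Run P S i w ∧ (v ∈ S ↔ b = true) ∧
      (P.Accepts S i ↔ P.Accepts S j) := by
  intro i
  induction i using WellFoundedLT.induction with
  | ind i ih =>
    intro hi
    rcases h : P.node i with b | ⟨w, j, k⟩
    · rw [pot_sink h] at hi
      omega
    · obtain ⟨h1, h2⟩ := P.lt i w j k h
      by_cases hw : w ∈ S
      · have ha : P.Accepts S i ↔ P.Accepts S j := by
          rw [BProg.accepts_node h]; tauto
        by_cases hj : c < pot P D j
        · obtain ⟨w', b, v, j', a1, a2, a3, a4⟩ := ih j h1 hj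
          exact ⟨w', b, v, j', a1, .one h hw a2, a3, ha.trans a4⟩
        · exact ⟨i, true, w, j, ⟨⟨j, k, h, rfl⟩, hi, not_lt.1 hj⟩, .refl i, by simp [hw], ha⟩
      · have ha : P.Accepts S i ↔ P.Accepts S k := by
          rw [BProg.accepts_node h]; tauto
        by_cases hk : c < pot P D k
        · obtain ⟨w', b, v, j', a1, a2, a3, a4⟩ := ih k h2 hk
          exact ⟨w', b, v, j', a1, .zero h hw a2, a3, ha.trans a4⟩
        · exact ⟨i, false, w, k, ⟨⟨j, k, h, rfl⟩, hi, not_lt.1 hk⟩, .refl i, by simp [hw], ha⟩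

theorem cross_unique {P : BProg V} {D : Finset V} {c : ℕ} {S : Finset V}
    {i w w' : Fin P.size} {b b' : Bool} {v v' : V} {j j' : Fin P.size}
    (h1 : Cross P D c w b v j) (h2 : Run P S i w) (h3 : v ∈ S ↔ b = true)
    (h1' : Cross P D c w' b' v' j') (h2' : Run P S i w') (h3' : v' ∈ S ↔ b' = true) :
    w = w' ∧ b = b' := by
  have key : ∀ {w w' : Fin P.size} {b b' : Bool} {v v' : V} {j j' : Fin P.size},
      Cross P D c w b v j → (v ∈ S ↔ b = true) → Cross P D c w' b' v' j' → Run P S w w' →
      w = w' := by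
    intro w w' b b' v v' j j' h1 h3 h1' h4
    obtain ⟨⟨j1, k1, hn, hj⟩, -, hle⟩ := h1
    obtain ⟨-, hlt, -⟩ := h1'
    cases h4 with
    | refl => rfl
    | one h hv hr =>
      rw [hn] at h
      simp only [Sum.inr.injEq, Prod.mk.injEq] at h
      obtain ⟨rfl, rfl, rfl⟩ := h
      rw [if_pos (h3.1 hv)] at hj
      subst hj
      exact absurd (hr.way.pot_le (D := D)) (by omega)
    | zero h hv hr =>
      rw [hn] at h
      simp only [Sum.inr.injEq, Prod.mk.injEq] at h
      obtain ⟨rfl, rfl, rfl⟩ := h
      rw [if_neg (fun hb => hv (h3.2 hb))] at hj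
      subst hj
      exact absurd (hr.way.pot_le (D := D)) (by omega)
  have hw : w = w' := by
    rcases h2.lin h2' with h | h
    · exact key h1 h3 h1' h
    · exact (key h1' h3' h1 h).symm
  refine ⟨hw, ?_⟩
  subst hw
  obtain ⟨⟨j1, k1, hn, -⟩, -, -⟩ := h1
  obtain ⟨⟨j2, k2, hn', -⟩, -, -⟩ := h1'
  rw [hn] at hn'
  simp only [Sum.inr.injEq, Prod.mk.injEq] at hn'
  obtain ⟨rfl, -, -⟩ := hn'
  have : (b = true) ↔ (b' = true) := h3.symm.trans h3'
  cases b <;> cases b' <;> simp_all

theorem ind_le_one (p : Prop) : ind p ≤ 1 := by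
  unfold ind
  split_ifs <;> norm_num

/-- decompositions with `c` factors -/
def HasDec (α : Type) [Fintype α] (D : Finset V) (θ : ℕ) (μ : V → ℕ) (c : ℕ)
    (f : Finset V → ℝ) : Prop :=
  ∃ (G : (Fin c → α) → Fin c → Finset V → ℝ) (Z : (Fin c → α) → Finset V → ℝ)
      (Y : (Fin c → α) → Fin c → Finset V),
      (∀ e t S, 0 ≤ G e t S ∧ G e t S ≤ 1) ∧ (∀ e S, 0 ≤ Z e S ∧ Z e S ≤ 1) ∧
      (∀ e t, Y e t ⊆ D ∧ (Y e t).card ≤ θ) ∧
      (∀ e v, (univ.filter fun t => v ∈ Y e t).card ≤ μ v) ∧
      (∀ e t S S', (∀ v, (v ∈ D → v ∈ Y e t) → (v ∈ S ↔ v ∈ S')) → G e t S = G e t S') ∧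
      (∀ e S S', (∀ v, v ∉ D → (v ∈ S ↔ v ∈ S')) → Z e S = Z e S') ∧
      ∀ S, f S = ∑ e, (∏ t, G e t S) * Z e S

theorem hasDec_zero (α : Type) [Fintype α] (D : Finset V) (θ : ℕ) (c : ℕ) :
    HasDec α D θ (fun _ => 0) c (fun _ => 0) := by
  refine ⟨fun _ _ _ => 1, fun _ _ => 0, fun _ _ => ∅, fun _ _ _ => ⟨zero_le_one, le_rfl⟩,
    fun _ _ => ⟨le_rfl, zero_le_one⟩, fun _ _ => ⟨empty_subset _, by simp⟩, fun _ _ => by simp,
    fun _ _ _ _ _ => rfl, fun _ _ _ _ => rfl, fun S => by simp⟩

theorem combine {α : Type} [Fintype α] {D : Finset V} {θ : ℕ} {μ : V → ℕ} {c : ℕ}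
    {f : Finset V → ℝ} (val : α → Finset V → ℝ)
    (h : ∀ a, ∃ (f' G0 : Finset V → ℝ) (Y0 : Finset V) (μ' : V → ℕ), HasDec α D θ μ' c f' ∧
      (∀ S, 0 ≤ G0 S ∧ G0 S ≤ 1) ∧ Y0 ⊆ D ∧ Y0.card ≤ θ ∧
      (∀ v, (if v ∈ Y0 then 1 else 0) + μ' v ≤ μ v) ∧
      (∀ S S', (∀ v, (v ∈ D → v ∈ Y0) → (v ∈ S ↔ v ∈ S')) → G0 S = G0 S') ∧
      ∀ S, val a S = G0 S * f' S) (hf : ∀ S, f S = ∑ a, val a S) : HasDec α D θ μ (c + 1) f := by
  choose f' G0 Y0 μ' hdec hG0 hY0 hY0c hμ hG0i hval using h
  choose G Z Y h1 h2 h3 h4 h5 h6 h7 using hdec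
  refine ⟨fun e => Fin.cons (G0 (e 0)) (G (e 0) (Fin.tail e)), fun e => Z (e 0) (Fin.tail e),
    fun e => Fin.cons (Y0 (e 0)) (Y (e 0) (Fin.tail e)), ?_, ?_, ?_, ?_, ?_, ?_, ?_⟩
  · intro e t S
    refine Fin.cases ?_ (fun t => ?_) t
    · simp only [Fin.cons_zero]
      exact hG0 _ S
    · simp only [Fin.cons_succ]
      exact h1 _ _ _ _
  · exact fun e S => h2 _ _ _
  · intro e t
    refine Fin.cases ?_ (fun t => ?_) t
    · simp only [Fin.cons_zero]
      exact ⟨hY0 _, hY0c _⟩
    · simp only [Fin.cons_succ]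
      exact h3 _ _ _
  · intro e v
    have := h4 (e 0) (Fin.tail e) v
    rw [Finset.card_filter] at this ⊢
    rw [Fin.sum_univ_succ]
    simp only [Fin.cons_zero, Fin.cons_succ]
    exact (Nat.add_le_add_left this _).trans (hμ (e 0) v)
  · intro e t S S' hS
    revert hS
    refine Fin.cases ?_ (fun t => ?_) t
    · simp only [Fin.cons_zero]
      exact hG0i _ S S'
    · simp only [Fin.cons_succ]
      exact h5 _ _ _ _ _
  · exact fun e S S' hS => h6 _ _ _ _ hS
  · intro S
    rw [hf]
    rw [← (Fin.consEquiv fun _ => α).sum_comp, Fintype.sum_prod_type]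
    refine Finset.sum_congr rfl fun a _ => ?_
    rw [hval, h7, Finset.mul_sum]
    refine Finset.sum_congr rfl fun e _ => ?_
    simp only [Fin.consEquiv, Equiv.coe_fn_mk, Fin.prod_univ_succ, Fin.cons_zero, Fin.cons_succ,
      Fin.tail_cons]
    ring

theorem decomp_aux (P : BProg V) (D : Finset V) (θ : ℕ) : ∀ (c : ℕ) (i : Fin P.size),
    pot P D i ≤ c * θ →
      HasDec (Option (Fin P.size × Bool)) D θ (fun v => if v ∈ D then cnt P v i else 0) c
        (fun S => ind (P.Accepts S i)) := by
  classical
  intro c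
  induction c with
  | zero =>
    intro i hi
    have h0 : ∀ v ∈ D, cnt P v i = 0 := by
      have : pot P D i = 0 := by omega
      exact Finset.sum_eq_zero_iff.1 this
    refine ⟨fun _ t => t.elim0, fun _ S => ind (P.Accepts S i), fun _ t => t.elim0,
      fun _ t => t.elim0, fun _ S => ⟨ind_nonneg _, ?_⟩, fun _ t => t.elim0, fun _ v => by simp,
      fun _ t => t.elim0, ?_, fun S => ?_⟩
    · exact ind_le_one _
    · intro _ S S' hS
      have key : ∀ x, 1 ≤ cnt P x i → (x ∈ S ↔ x ∈ S') := fun x hx => hS x fun hD => by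
        rw [h0 x hD] at hx
        omega
      exact ind_congr ⟨fun h => acc_congr h key, fun h => acc_congr h fun x hx => (key x hx).symm⟩
    · simp
  | succ c ih =>
    intro i hi
    by_cases hlow : pot P D i ≤ c * θ
    · -- the level has already been crossed
      refine combine (fun a S => if a = none then ind (P.Accepts S i) else 0) (fun a => ?_)
        (fun S => by simp)
      rcases a with _ | a
      · exact ⟨_, fun _ => 1, ∅, _, ih i hlow, fun _ => ⟨zero_le_one, le_rfl⟩,
          empty_subset _, by simp, fun v => by simp, fun _ _ _ => rfl, fun S => by simp⟩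
      · exact ⟨_, fun _ => 1, ∅, _, hasDec_zero _ D θ c, fun _ => ⟨zero_le_one, le_rfl⟩,
          empty_subset _, by simp, fun v => by simp, fun _ _ _ => rfl, fun S => by simp⟩
    · push Not at hlow
      -- the value which belongs to an arc
      let val : Option (Fin P.size × Bool) → Finset V → ℝ := fun a S =>
        ind (∃ w b v j, a = some (w, b) ∧ Cross P D (c * θ) w b v j ∧ Run P S i w ∧
          (v ∈ S ↔ b = true) ∧ P.Accepts S j)
      refine combine val (fun a => ?_) (fun S => ?_)
      · by_cases ha : ∃ w b v j, a = some (w, b) ∧ Cross P D (c * θ) w b v j ∧ Way P i w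
        · obtain ⟨w, b, v, j, rfl, hC, hW⟩ := ha
          have hC' := hC
          obtain ⟨⟨j1, k1, hn, hj⟩, hlt, hle⟩ := hC
          set Y0 : Finset V := D.filter fun x => On P x i w ∨ x = v with hY0
          have hcj : ∀ x, cnt P x j + (if x = v then 1 else 0) ≤ cnt P x w := by
            intro x
            rw [cnt_node x hn, hj]
            by_cases hxv : x = v
            · rw [if_pos hxv, if_pos hxv.symm]
              cases b <;> simp <;> omega
            · rw [if_neg hxv, if_neg (Ne.symm hxv)]
              cases b <;> simp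
          refine ⟨_, fun S => ind (Run P S i w ∧ (v ∈ S ↔ b = true)), Y0, _, ih j hle,
            fun S => ⟨ind_nonneg _, ind_le_one _⟩, filter_subset _ _, ?_, fun x => ?_,
            fun S S' hS => ?_, fun S => ?_⟩
          · -- the number of the variables
            have h1 : Y0 ⊆ insert v (D.filter fun x => On P x i w) := by
              intro x hx
              rw [hY0, mem_filter] at hx
              rw [mem_insert, mem_filter]
              rcases hx.2 with h | h
              · exact Or.inr ⟨hx.1, h⟩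
              · exact Or.inl h
            have h2 := (card_le_card h1).trans (card_insert_le _ _)
            have h3 := hW.pot_add (D := D)
            have h4 : (c + 1) * θ = c * θ + θ := by ring
            omega
          · -- multiplicities
            have h1 := hcj x
            have h2 := hW.cnt_le x
            by_cases hx : x ∈ D
            · rw [if_pos hx, if_pos hx]
              by_cases hxY : x ∈ Y0
              · rw [if_pos hxY]
                rcases (mem_filter.1 hxY).2 with h | h
                · have := h.cnt_lt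
                  omega
                · rw [if_pos h] at h1
                  omega
              · rw [if_neg hxY]
                omega
            · rw [if_neg hx, if_neg hx, if_neg fun h => hx (mem_filter.1 h).1]
          · have key : ∀ x, (On P x i w ∨ x = v) → (x ∈ S ↔ x ∈ S') := fun x hx =>
              hS x fun hD => mem_filter.2 ⟨hD, hx⟩
            refine ind_congr ⟨fun h => ⟨h.1.congr fun x hx => key x (Or.inl hx),
              (key v (Or.inr rfl)).symm.trans h.2⟩, fun h => ⟨h.1.congr fun x hx =>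
              (key x (Or.inl hx)).symm, (key v (Or.inr rfl)).trans h.2⟩⟩
          · show ind _ = ind _ * ind _
            have h1 : (∃ w' b' v' j', some (w, b) = some (w', b') ∧
                Cross P D (c * θ) w' b' v' j' ∧ Run P S i w' ∧ (v' ∈ S ↔ b' = true) ∧
                P.Accepts S j') ↔ (Run P S i w ∧ (v ∈ S ↔ b = true)) ∧ P.Accepts S j := by
              constructor
              · rintro ⟨w', b', v', j', h1, ⟨⟨j2, k2, hn', hj'⟩, -, -⟩, h3, h4, h5⟩
                simp only [Option.some.injEq, Prod.mk.injEq] at h1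
                obtain ⟨rfl, rfl⟩ := h1
                rw [hn] at hn'
                simp only [Sum.inr.injEq, Prod.mk.injEq] at hn'
                obtain ⟨rfl, rfl, rfl⟩ := hn'
                rw [← hj] at hj'
                subst hj'
                exact ⟨⟨h3, h4⟩, h5⟩
              · rintro ⟨⟨h3, h4⟩, h5⟩
                exact ⟨w, b, v, j, rfl, hC', h3, h4, h5⟩
            rw [ind_congr h1]
            unfold ind
            by_cases p : Run P S i w ∧ (v ∈ S ↔ b = true) <;> by_cases q : P.Accepts S j <;>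
              simp [p, q]
        · refine ⟨_, fun _ => 1, ∅, _, hasDec_zero _ D θ c, fun _ => ⟨zero_le_one, le_rfl⟩,
            empty_subset _, by simp, fun v => by simp, fun _ _ _ => rfl, fun S => ?_⟩
          show ind _ = _
          rw [mul_zero]
          unfold ind
          rw [if_neg]
          rintro ⟨w, b, v, j, h1, h2, h3, -, -⟩
          exact ha ⟨w, b, v, j, h1, h2, h3.way⟩
      · -- exactly one arc counts
        obtain ⟨w, b, v, j, h1, h2, h3, h4⟩ := exists_cross P D (c * θ) S i hlow
        rw [Finset.sum_eq_single (some (w, b))]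
        · refine ind_congr ⟨fun h => ⟨w, b, v, j, rfl, h1, h2, h3, h4.1 h⟩, ?_⟩
          rintro ⟨w', b', v', j', e, ⟨⟨j2, k2, hn', hj'⟩, -, -⟩, -, -, h5⟩
          obtain ⟨⟨j1, k1, hn, hj⟩, -, -⟩ := h1
          simp only [Option.some.injEq, Prod.mk.injEq] at e
          obtain ⟨rfl, rfl⟩ := e
          rw [hn] at hn'
          simp only [Sum.inr.injEq, Prod.mk.injEq] at hn'
          obtain ⟨rfl, rfl, rfl⟩ := hn'
          rw [← hj] at hj'
          subst hj'
          exact h4.2 h5
        · intro a _ ha
          show ind _ = 0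
          unfold ind
          rw [if_neg]
          rintro ⟨w', b', v', j', rfl, h1', h2', h3', -⟩
          obtain ⟨rfl, rfl⟩ := cross_unique h1 h2 h3 h1' h2' h3'
          exact ha rfl
        · intro h
          exact absurd (mem_univ _) h

/-- **the unambiguous decomposition** of a deterministic read-`k`-times program -/
theorem decomp (P : BProg V) (o : Fin P.size) (k r θ : ℕ) (D : Finset V)
    (hk : ReadTimes P k o) (hr : k * D.card ≤ r * θ) :
    ∃ (G : (Fin r → Option (Fin P.size × Bool)) → Fin r → Finset V → ℝ)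
      (Z : (Fin r → Option (Fin P.size × Bool)) → Finset V → ℝ)
      (Y : (Fin r → Option (Fin P.size × Bool)) → Fin r → Finset V),
      (∀ e t S, 0 ≤ G e t S ∧ G e t S ≤ 1) ∧ (∀ e S, 0 ≤ Z e S ∧ Z e S ≤ 1) ∧
      (∀ e t, Y e t ⊆ D ∧ (Y e t).card ≤ θ) ∧
      (∀ e v, (univ.filter fun t => v ∈ Y e t).card ≤ k) ∧
      (∀ e t S S', (∀ v, (v ∈ D → v ∈ Y e t) → (v ∈ S ↔ v ∈ S')) → G e t S = G e t S') ∧
      (∀ e S S', (∀ v, v ∉ D → (v ∈ S ↔ v ∈ S')) → Z e S = Z e S') ∧
      ∀ S, ind (P.Accepts S o) = ∑ e, (∏ t, G e t S) * Z e S := by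
  have h1 : pot P D o ≤ r * θ := by
    refine le_trans ?_ hr
    unfold pot
    calc ∑ v ∈ D, cnt P v o ≤ ∑ _v ∈ D, k := Finset.sum_le_sum fun v _ => hk.cnt_le v
      _ = k * D.card := by rw [sum_const, smul_eq_mul, mul_comm]
  obtain ⟨G, Z, Y, a1, a2, a3, a4, a5, a6, a7⟩ := decomp_aux P D θ r o h1
  refine ⟨G, Z, Y, a1, a2, a3, fun e v => (a4 e v).trans ?_, a5, a6, a7⟩
  simp only
  split_ifs
  · exact hk.cnt_le v
  · exact Nat.zero_le _

end Pool.Agent.L5helper87.RK
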