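import Pool.Agent.L5helper60.DN.BP

/-!
# Read-`k`-times branching programs: pairs of disjoint dense sets
-/

set_option autoImplicit false
set_option linter.unusedSectionVars false

open Finset

namespace Pool.Agent.L5helper87.RK

open Pool.Agent.L5helper60.DN

variable {m : ℕ}

/-- the product `l` of the gadget is split by the pair `A`, `B`: the places of one factor belong to
`A`, those of the other one to `B` -/
def Gd2 {X : Type} (A B : Finset X) (τ : Sl m → X) (l : Fin m) : Prop :=
  ((∀ ρ, τ (.inl (l, false, ρ)) ∈ A) ∧ ∀ ρ, τ (.inl (l, true, ρ)) ∈ B) ∨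
    ((∀ ρ, τ (.inl (l, false, ρ)) ∈ B) ∧ ∀ ρ, τ (.inl (l, true, ρ)) ∈ A)

open Classical in
/-- the weight of a tuple -/
noncomputable def wt2 {X : Type} (A B : Finset X) (τ : Sl m → X) : ℝ :=
  ∏ l, if Gd2 A B τ l then 5 / 7 else 1

theorem wt2_nonneg {X : Type} (A B : Finset X) (τ : Sl m → X) : 0 ≤ wt2 A B τ := by
  refine Finset.prod_nonneg fun l _ => ?_
  split_ifs <;> norm_num

theorem wt2_le_one {X : Type} (A B : Finset X) (τ : Sl m → X) : wt2 A B τ ≤ 1 := by
  refine Finset.prod_le_one (fun l _ => ?_) fun l _ => ?_
  · split_ifs <;> norm_num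
  · split_ifs <;> norm_num

/-- the list of the vertices tested on a path which starts at the node -/
inductive BPath {V : Type} (P : BProg V) : Fin P.size → List V → Prop
  | nil (i : Fin P.size) : BPath P i []
  | left {i j k : Fin P.size} {v : V} {l : List V} (h : P.node i = .inr (v, j, k))
      (hj : BPath P j l) : BPath P i (v :: l)
  | right {i j k : Fin P.size} {v : V} {l : List V} (h : P.node i = .inr (v, j, k))
      (hk : BPath P k l) : BPath P i (v :: l)

/-- no path from the node `o` tests a vertex more than `k` times -/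
def ReadTimes {V : Type} [DecidableEq V] (P : BProg V) (k : ℕ) (o : Fin P.size) : Prop :=
  ∀ l, BPath P o l → ∀ v, l.count v ≤ k

end Pool.Agent.L5helper87.RK
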