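import Pool.Agent.L5helper87.RK.Low

/-!
# The mean of the weights for two disjoint dense sets
-/

set_option autoImplicit false
set_option linter.unusedSectionVars false

open Finset

namespace Pool.Agent.L5helper87.RK

open Pool.Agent.L5helper60.DN

section des

variable {m : ℕ} {X : Type} [Fintype X] [DecidableEq X]

theorem wt2_eq (A B : Finset X) (τ : Sl m → X) :
    wt2 A B τ = Pool.Agent.L5helper60.DN2.wt2 A B τ := rfl

theorem sum_wt2 [Nonempty X] (δ : ℕ) (hδ : 1 ≤ δ) (A B : Finset X) (hAB : Disjoint A B)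
    (h1 : Fintype.card X ≤ δ * A.card) (h2 : Fintype.card X ≤ δ * B.card) :
    ∑ τ : Sl m → X, wt2 A B τ ≤
      (1 - 4 / (7 * (δ : ℝ) ^ 4)) ^ m * (Fintype.card (Sl m → X) : ℝ) := by
  have h3 := Pool.Agent.L5helper60.DN2.sum_wt2 (m := m) δ (by omega) A B hAB h1 h2
  exact h3

end des

end Pool.Agent.L5helper87.RK
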