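import Pool.Agent.L5helper87.RK.Des

/-!
# Existence of a good design for pairs of disjoint dense sets
-/

set_option autoImplicit false
set_option linter.unusedSectionVars false

open Finset

namespace Pool.Agent.L5helper87.RK

open Pool.Agent.L5helper60.DN

/-- the same with the smaller bound for the number of the tuples -/
theorem exists_design2' (δ m C1 P : ℕ) (hδ : 1 ≤ δ)
    (hm : (1 - 4 / (7 * (δ : ℝ) ^ 4)) ^ m ≤ 1 / 64)
    (hC : 2 * (4 * m + 2) ^ 2 ≤ C1) (hP : (C1 + 4) ^ 2 * 64 ^ (C1 + 4) ≤ P)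
    (L : Type) [Fintype L] [DecidableEq L] [Nonempty L] :
    ∃ T : L → Fin P → Sl m → (L × Fin C1),
      ((P : ℝ) / 4) ^ Fintype.card L ≤ (nInj T : ℝ) ∧
      ∀ A B : Finset (L × Fin C1), Disjoint A B →
        Fintype.card (L × Fin C1) ≤ δ * A.card → Fintype.card (L × Fin C1) ≤ δ * B.card →
        ∏ i, ∑ q, wt2 A B (T i q) ≤ ((P : ℝ) / 16) ^ Fintype.card L :=
  Pool.Agent.L5helper60.DN2.exists_design2 δ m C1 P (by omega) hm hC hP L

theorem exists_design2 (δ m C1 P : ℕ) (hδ : 1 ≤ δ)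
    (hm : (1 - 4 / (7 * (δ : ℝ) ^ 4)) ^ m ≤ 1 / 64)
    (hC : 2 * (4 * m + 2) ^ 2 ≤ C1) (hP : (2 * C1 + 4) ^ 2 * 64 ^ (2 * C1 + 4) ≤ P)
    (L : Type) [Fintype L] [DecidableEq L] [Nonempty L] :
    ∃ T : L → Fin P → Sl m → (L × Fin C1),
      ((P : ℝ) / 4) ^ Fintype.card L ≤ (nInj T : ℝ) ∧
      ∀ A B : Finset (L × Fin C1), Disjoint A B →
        Fintype.card (L × Fin C1) ≤ δ * A.card → Fintype.card (L × Fin C1) ≤ δ * B.card →
        ∏ i, ∑ q, wt2 A B (T i q) ≤ ((P : ℝ) / 16) ^ Fintype.card L := by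
  refine exists_design2' δ m C1 P hδ hm hC (le_trans ?_ hP) L
  exact Nat.mul_le_mul (Nat.pow_le_pow_left (by omega) 2)
    (Nat.pow_le_pow_right (by norm_num) (by omega))

end Pool.Agent.L5helper87.RK
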