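import Pool.Agent.L5helper60.DN2.Exi
import Pool.Agent.L5helper87.RK.Defs

/-!
# The bound for products of two functions which do not see one of two disjoint sets each
-/

set_option autoImplicit false
set_option linter.unusedSectionVars false

open Finset

namespace Pool.Agent.L5helper87.RK

open Pool.Agent.L5helper60.DN

section low

variable {m : ℕ} {L Q X : Type} [Fintype L] [DecidableEq L] [Fintype Q] [DecidableEq Q] [Fintype X]
  [DecidableEq X]

theorem indep_of (B : Finset X) (f : Finset (X ⊕ L × Q) → ℝ)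
    (hf : ∀ S S' : Finset (X ⊕ L × Q), (∀ v, (∀ x ∈ B, v ≠ Sum.inl x) → (v ∈ S ↔ v ∈ S')) →
      f S = f S') : IndepOf f (B.map Function.Embedding.inl) := by
  intro S S' h
  refine hf S S' fun v hv => h v ?_
  intro hm
  obtain ⟨x, hx, he⟩ := mem_map.1 hm
  exact hv x hx he.symm

theorem pX_map (A : Finset X) :
    pX (L := L) (Q := Q) (A.map Function.Embedding.inl) = A := by
  ext x
  rw [mem_pX, mem_map]
  constructor
  · rintro ⟨y, hy, he⟩
    have : y = x := Sum.inl_injective he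
    rwa [← this]
  · intro hx
    exact ⟨x, hx, rfl⟩

theorem rect_bound2 (T : L → Q → Sl m → X) (c : L → Q) (A B : Finset X) (hAB : Disjoint A B)
    (g h : Finset (X ⊕ L × Q) → ℝ) (hg : ∀ S, |g S| ≤ 1) (hh : ∀ S, |h S| ≤ 1)
    (hgB : ∀ S S' : Finset (X ⊕ L × Q), (∀ v, (∀ x ∈ B, v ≠ Sum.inl x) → (v ∈ S ↔ v ∈ S')) →
      g S = g S')
    (hhA : ∀ S S' : Finset (X ⊕ L × Q), (∀ v, (∀ x ∈ A, v ≠ Sum.inl x) → (v ∈ S ↔ v ∈ S')) →
      h S = h S') :
    |lam T c fun S => g S * h S| ≤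
      2 ^ Fintype.card L * (4 ^ Fintype.card (L × Fin m) * ∏ i, wt2 A B (T i (c i))) := by
  classical
  have hgB' := indep_of B g hgB
  have hhA' := indep_of A h hhA
  have hpA : pX (L := L) (Q := Q) (A.map Function.Embedding.inl) = A := pX_map A
  have hpB : pX (L := L) (Q := Q) (B.map Function.Embedding.inl) = B := pX_map B
  unfold lam
  set D : Finset (L × Fin m) := univ.filter fun p => Gd2 A B (T p.1 (c p.1)) p.2 with hD
  have hwt : ∏ i, wt2 A B (T i (c i)) = (5 / 7 : ℝ) ^ D.card := by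
    have h1 : ∏ i, wt2 A B (T i (c i)) =
        ∏ p : L × Fin m, if p ∈ D then (5 / 7 : ℝ) else 1 := by
      rw [Fintype.prod_prod_type]
      refine Finset.prod_congr rfl fun i _ => ?_
      unfold wt2
      refine Finset.prod_congr rfl fun l _ => ?_
      by_cases hp : Gd2 A B (T i (c i)) l
      · rw [if_pos hp, if_pos (by rw [hD]; exact mem_filter.2 ⟨mem_univ _, hp⟩)]
      · rw [if_neg hp, if_neg (by rw [hD]; exact fun h => hp (mem_filter.1 h).2)]
    rw [h1, prod_ite_pow D (5 / 7) 1 one_ne_zero]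
    simp
  have hdis : ∀ x, x ∈ A → x ∈ B → False := fun x h1 h2 => disjoint_left.1 hAB h1 h2
  -- the orientation: `false` if the places of `a` are in `A`
  set ρ : L × Fin m → Bool := fun p =>
    !(decide (∀ ρ', T p.1 (c p.1) (.inl (p.2, false, ρ')) ∈ A)) with hρ
  have r1 : ∀ p ∈ D, ρ p = false → (∀ ρ', T p.1 (c p.1) (.inl (p.2, false, ρ')) ∈ A) ∧
      ∀ ρ', T p.1 (c p.1) (.inl (p.2, true, ρ')) ∈ B := by
    intro p hp h1
    have h2 : ∀ ρ', T p.1 (c p.1) (.inl (p.2, false, ρ')) ∈ A := by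
      simpa [hρ] using h1
    rcases (mem_filter.1 hp).2 with h3 | h3
    · exact h3
    · exact absurd (h3.1 true) fun h4 => hdis _ (h2 true) h4
  have r2 : ∀ p ∈ D, ρ p = true → (∀ ρ', T p.1 (c p.1) (.inl (p.2, false, ρ')) ∈ B) ∧
      ∀ ρ', T p.1 (c p.1) (.inl (p.2, true, ρ')) ∈ A := by
    intro p hp h1
    have h2 : ¬∀ ρ', T p.1 (c p.1) (.inl (p.2, false, ρ')) ∈ A := by
      intro h3
      have : ρ p = false := by rw [hρ]; simp [h3]
      rw [this] at h1
      exact absurd h1 (by decide)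
    rcases (mem_filter.1 hp).2 with h3 | h3
    · exact absurd h3.1 h2
    · exact h3
  have hw : ∀ w : L → Bool, |∑ a : L × Fin m → Bool, ∑ b : L × Fin m → Bool,
      (∏ p, sg (a p && b p)) * (g (sel T c a b w) * h (sel T c a b w))| ≤
      4 ^ Fintype.card (L × Fin m) * (5 / 7) ^ D.card := by
    intro w
    refine disc_or D ρ (fun a b => g (sel T c a b w)) (fun a b => h (sel T c a b w))
      (fun _ _ => hg _) (fun _ _ => hh _) ?_ ?_
    · intro a b a' b' ha hb
      exact Pool.Agent.L5helper60.DN2.sel_congr T c w (A.map Function.Embedding.inl)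
        (B.map Function.Embedding.inl) g hgB' D ρ
        (fun p hp h1 => by rw [hpB]; exact (r1 p hp h1).2)
        (fun p hp h1 => by rw [hpB]; exact (r2 p hp h1).1) a b a' b' ha hb
    · intro a b a' b' ha hb
      exact Pool.Agent.L5helper60.DN2.sel_congr T c w (B.map Function.Embedding.inl)
        (A.map Function.Embedding.inl) h hhA' D (fun p => !(ρ p))
        (fun p hp h1 => by rw [hpA]; exact (r2 p hp (by simpa using h1)).2)
        (fun p hp h1 => by rw [hpA]; exact (r1 p hp (by simpa using h1)).1) a b a' b'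
        (fun p hp => ha p (hp.imp_right fun h => by simpa using h))
        (fun p hp => hb p (hp.imp_right fun h => by simpa using h))
  have h2 : ∀ w : L → Bool, |∑ a : L × Fin m → Bool, ∑ b : L × Fin m → Bool,
      (∏ p, sg (a p && b p)) * ((∏ i, sg (w i)) * (g (sel T c a b w) * h (sel T c a b w)))| ≤
      4 ^ Fintype.card (L × Fin m) * (5 / 7) ^ D.card := by
    intro w
    have h3 : ∑ a : L × Fin m → Bool, ∑ b : L × Fin m → Bool,
        (∏ p, sg (a p && b p)) * ((∏ i, sg (w i)) * (g (sel T c a b w) * h (sel T c a b w))) =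
        (∏ i, sg (w i)) * ∑ a : L × Fin m → Bool, ∑ b : L × Fin m → Bool,
          (∏ p, sg (a p && b p)) * (g (sel T c a b w) * h (sel T c a b w)) := by
      rw [Finset.mul_sum]
      refine Finset.sum_congr rfl fun a _ => ?_
      rw [Finset.mul_sum]
      refine Finset.sum_congr rfl fun b _ => ?_
      ring
    rw [h3, abs_mul, prod_le_one_abs _ fun i => abs_sg _, one_mul]
    exact hw w
  rw [hwt]
  calc _ ≤ ∑ _w : L → Bool, 4 ^ Fintype.card (L × Fin m) * (5 / 7 : ℝ) ^ D.card :=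
        (Finset.abs_sum_le_sum_abs _ _).trans (Finset.sum_le_sum fun w _ => h2 w)
    _ = _ := by
        rw [Finset.sum_const, card_univ, Fintype.card_fun, Fintype.card_bool]
        simp

theorem one_le2 (T : L → Q → Sl m → X) {E : Type} [Fintype E]
    (A B : E → Finset X) (hAB : ∀ e, Disjoint (A e) (B e))
    (g h : E → Finset (X ⊕ L × Q) → ℝ) (hg : ∀ e S, |g e S| ≤ 1) (hh : ∀ e S, |h e S| ≤ 1)
    (hgB : ∀ e, ∀ S S' : Finset (X ⊕ L × Q),
      (∀ v, (∀ x ∈ B e, v ≠ Sum.inl x) → (v ∈ S ↔ v ∈ S')) → g e S = g e S')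
    (hhA : ∀ e, ∀ S S' : Finset (X ⊕ L × Q),
      (∀ v, (∀ x ∈ A e, v ≠ Sum.inl x) → (v ∈ S ↔ v ∈ S')) → h e S = h e S')
    (f : Finset (X ⊕ L × Q) → ℝ) (hf : ∀ S, f S = ∑ e, g e S * h e S) (c : L → Q)
    (hc : |lam T c f| = 4 ^ Fintype.card (L × Fin m)) :
    (1 : ℝ) ≤ 2 ^ Fintype.card L * ∑ e, ∏ i, wt2 (A e) (B e) (T i (c i)) := by
  have h8 : lam T c f = ∑ e, lam T c fun S => g e S * h e S := by
    rw [← lam_sum T c fun e S => g e S * h e S]
    congr 1
    funext S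
    exact hf S
  have h12 : (0 : ℝ) < 4 ^ Fintype.card (L × Fin m) := by positivity
  have h9 : (4 : ℝ) ^ Fintype.card (L × Fin m) ≤ 4 ^ Fintype.card (L × Fin m) *
        (2 ^ Fintype.card L * ∑ e, ∏ i, wt2 (A e) (B e) (T i (c i))) := by
    calc (4 : ℝ) ^ Fintype.card (L × Fin m) = |lam T c f| := hc.symm
      _ = |∑ e, lam T c fun S => g e S * h e S| := by rw [h8]
      _ ≤ ∑ e, |lam T c fun S => g e S * h e S| := Finset.abs_sum_le_sum_abs _ _
      _ ≤ ∑ e, 2 ^ Fintype.card L * (4 ^ Fintype.card (L × Fin m) *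
          ∏ i, wt2 (A e) (B e) (T i (c i))) := Finset.sum_le_sum fun e _ =>
          rect_bound2 T c (A e) (B e) (hAB e) (g e) (h e) (hg e) (hh e) (hgB e) (hhA e)
      _ = _ := by
          rw [Finset.mul_sum, Finset.mul_sum]
          exact Finset.sum_congr rfl fun e _ => by ring
  exact (le_mul_iff_one_le_right h12).1 h9

open Classical in
theorem sum_inj_le2 (T : L → Q → Sl m → X) (A B : Finset X) :
    ∑ c ∈ univ.filter (fun c : L → Q => Inj T c), ∏ i, wt2 A B (T i (c i)) ≤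
      ∏ i, ∑ q, wt2 A B (T i q) := by
  rw [← sum_prod_pi (fun i q => wt2 A B (T i q))]
  exact Finset.sum_le_sum_of_subset_of_nonneg (filter_subset _ _) fun c _ _ =>
    Finset.prod_nonneg fun i _ => wt2_nonneg _ _ _

theorem count_le2 (T : L → Q → Sl m → X) (δ : ℕ) (M : ℝ)
    (hM : ∀ A B : Finset X, Disjoint A B → Fintype.card X ≤ δ * A.card →
      Fintype.card X ≤ δ * B.card → ∏ i, ∑ q, wt2 A B (T i q) ≤ M)
    {E : Type} [Fintype E] (A B : E → Finset X) (hAB : ∀ e, Disjoint (A e) (B e))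
    (hA : ∀ e, Fintype.card X ≤ δ * (A e).card) (hB : ∀ e, Fintype.card X ≤ δ * (B e).card)
    (g h : E → Finset (X ⊕ L × Q) → ℝ) (hg : ∀ e S, |g e S| ≤ 1) (hh : ∀ e S, |h e S| ≤ 1)
    (hgB : ∀ e, ∀ S S' : Finset (X ⊕ L × Q),
      (∀ v, (∀ x ∈ B e, v ≠ Sum.inl x) → (v ∈ S ↔ v ∈ S')) → g e S = g e S')
    (hhA : ∀ e, ∀ S S' : Finset (X ⊕ L × Q),
      (∀ v, (∀ x ∈ A e, v ≠ Sum.inl x) → (v ∈ S ↔ v ∈ S')) → h e S = h e S')
    (f : Finset (X ⊕ L × Q) → ℝ) (hf : ∀ S, f S = ∑ e, g e S * h e S)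
    (hlam : ∀ c, Inj T c → |lam T c f| = 4 ^ Fintype.card (L × Fin m)) :
    (nInj T : ℝ) ≤ 2 ^ Fintype.card L * (Fintype.card E * M) := by
  classical
  have hone : ∀ c : L → Q, Inj T c → (1 : ℝ) ≤
      2 ^ Fintype.card L * ∑ e, ∏ i, wt2 (A e) (B e) (T i (c i)) := fun c hc =>
    one_le2 T A B hAB g h hg hh hgB hhA f hf c (hlam c hc)
  have s1 : (nInj T : ℝ) = ∑ _c ∈ univ.filter (fun c : L → Q => Inj T c), (1 : ℝ) := by
    rw [Finset.sum_const, nsmul_eq_mul, mul_one]
    rfl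
  have s2 : ∑ _c ∈ univ.filter (fun c : L → Q => Inj T c), (1 : ℝ) ≤
      ∑ c ∈ univ.filter (fun c : L → Q => Inj T c),
        2 ^ Fintype.card L * ∑ e, ∏ i, wt2 (A e) (B e) (T i (c i)) :=
    Finset.sum_le_sum fun c hc => hone c (mem_filter.1 hc).2
  have s3 : ∑ c ∈ univ.filter (fun c : L → Q => Inj T c),
        2 ^ Fintype.card L * ∑ e, ∏ i, wt2 (A e) (B e) (T i (c i)) =
      2 ^ Fintype.card L * ∑ e, ∑ c ∈ univ.filter (fun c : L → Q => Inj T c),
          ∏ i, wt2 (A e) (B e) (T i (c i)) := by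
    rw [← Finset.mul_sum, Finset.sum_comm]
  have s4 : ∑ e, ∑ c ∈ univ.filter (fun c : L → Q => Inj T c),
        ∏ i, wt2 (A e) (B e) (T i (c i)) ≤ ∑ _e : E, M :=
    Finset.sum_le_sum fun e _ => (sum_inj_le2 T (A e) (B e)).trans
      (hM (A e) (B e) (hAB e) (hA e) (hB e))
  have s5 : ∑ _e : E, M = Fintype.card E * M := by
    rw [Finset.sum_const, card_univ, nsmul_eq_mul]
  rw [s1]
  refine s2.trans ?_
  rw [s3, ← s5]
  exact mul_le_mul_of_nonneg_left s4 (by positivity)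

end low

end Pool.Agent.L5helper87.RK
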