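import Pool.Agent.L5helper87.RK.Split
import Pool.Agent.L5helper87.RK.Low
import Pool.Agent.L5helper87.RK.Exi

/-!
# The hypergraphs and the bound for read-`k`-times programs
-/

set_option autoImplicit false
set_option linter.unusedSectionVars false

open Finset

namespace Pool.Agent.L5helper87.RK

open Pool.Agent.L5helper60.DN Pool.Agent.L5helper18.DD

/-- the lower bound for the good design -/
theorem size_ge2 (k m C1 P : ℕ) (hm : (1 - 4 / (7 * ((8 * 4 ^ k : ℕ) : ℝ) ^ 4)) ^ m ≤ 1 / 64)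
    (hC : 2 * (4 * m + 2) ^ 2 ≤ C1) (hC2 : 8 * 4 ^ k ≤ C1)
    (hP : (2 * C1 + 4) ^ 2 * 64 ^ (2 * C1 + 4) ≤ P) (j : ℕ) :
    ∃ T : Lf j → Fin P → Sl m → (Lf j × Fin C1),
      ∀ (R : BProg ((Lf j × Fin C1) ⊕ Lf j × Fin P)) (o : Fin R.size), ReadTimes R k o →
        (∀ S, R.Accepts S o ↔ FF j T S) ∨ (∀ S, R.Accepts S o ↔ ¬ FF j T S) →
          2 ^ 4 ^ j ≤ (2 * R.size + 1) ^ (4 * k * (k + 1)) := by
  classical
  have h4k : 1 ≤ 4 ^ k := Nat.one_le_pow _ _ (by norm_num)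
  obtain ⟨T, hT1, hT2⟩ := exists_design2 (8 * 4 ^ k) m C1 P (by omega) hm hC hP (Lf j)
  refine ⟨T, fun R o hk hR => ?_⟩
  have hcX : Fintype.card (Lf j × Fin C1) = 4 ^ j * C1 := by
    rw [Fintype.card_prod, card_Lf, Fintype.card_fin]
  have h4 : 1 ≤ 4 ^ j := Nat.one_le_pow _ _ (by norm_num)
  have hP0 : 0 < P := by
    have : 0 < (2 * C1 + 4) ^ 2 * 64 ^ (2 * C1 + 4) := by positivity
    omega
  have hP0' : (0 : ℝ) < P := by exact_mod_cast hP0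
  have hk4 : k + 1 ≤ 4 ^ k := by
    have := Nat.lt_pow_self (n := k) (show 1 < 4 by norm_num)
    omega
  set n := Fintype.card (Lf j × Fin C1) with hn
  have hn1 : 8 * 4 ^ k ≤ n := by
    rw [hcX]
    exact hC2.trans (Nat.le_mul_of_pos_left _ (by omega))
  have hdiv : 2 * (k + 1) * (n / (2 * (k + 1))) ≤ n := Nat.mul_div_le _ _
  have hdiv2 : n < 2 * (k + 1) * (n / (2 * (k + 1)) + 1) :=
    Nat.lt_mul_div_succ n (by omega)
  have hr : k * n ≤ 4 * k * (k + 1) * (n / (2 * (k + 1))) := by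
    have e1 : n ≤ 4 * (k + 1) * (n / (2 * (k + 1))) := by
      set q := n / (2 * (k + 1))
      nlinarith
    calc k * n ≤ k * (4 * (k + 1) * (n / (2 * (k + 1)))) := Nat.mul_le_mul_left _ e1
      _ = _ := by ring
  obtain ⟨A, B, g, h, a1, a2, a3, a4, a5, a6, a7, a8⟩ :=
    split R o k (4 * k * (k + 1)) (n / (2 * (k + 1))) hk hr hdiv hn1
  have hcE : Fintype.card (Fin (4 * k * (k + 1)) → Option (Fin R.size × Bool)) =
      (2 * R.size + 1) ^ (4 * k * (k + 1)) := by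
    rw [Fintype.card_fun, Fintype.card_option, Fintype.card_prod, Fintype.card_fin,
      Fintype.card_bool, Fintype.card_fin]
    ring
  have hlam : ∀ c, Inj T c → |lam T c fun S => ind (R.Accepts S o)| =
      4 ^ Fintype.card (Lf j × Fin m) := by
    intro c hc
    rcases hR with hR | hR
    · rw [show (fun S => ind (R.Accepts S o)) = fun S => ind (FF j T S) from
        funext fun S => ind_congr (hR S)]
      exact lam_FF j T c hc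
    · rw [show (fun S => ind (R.Accepts S o)) = fun S => ind (¬ FF j T S) from
        funext fun S => ind_congr (hR S)]
      exact lam_not j T c hc
  have h1 : (nInj T : ℝ) ≤ 2 ^ Fintype.card (Lf j) *
      (Fintype.card (Fin (4 * k * (k + 1)) → Option (Fin R.size × Bool)) *
        ((P : ℝ) / 16) ^ Fintype.card (Lf j)) :=
    count_le2 T (8 * 4 ^ k) (((P : ℝ) / 16) ^ Fintype.card (Lf j)) hT2 A B a1 a2 a3 g h a4 a5
      a6 a7 _ a8 hlam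
  have h2 := hT1.trans h1
  rw [card_Lf, hcE] at h2
  have h3 : ((P : ℝ) / 4) ^ 4 ^ j = ((P : ℝ) / 16) ^ 4 ^ j * (2 ^ 4 ^ j * 2 ^ 4 ^ j) := by
    rw [← mul_pow, ← mul_pow]
    congr 1
    ring
  rw [h3] at h2
  have h5 : (0 : ℝ) < ((P : ℝ) / 16) ^ 4 ^ j := by positivity
  have h6 : (0 : ℝ) < 2 ^ 4 ^ j := by positivity
  have h7 : (((P : ℝ) / 16) ^ 4 ^ j * 2 ^ 4 ^ j) * (2 : ℝ) ^ 4 ^ j ≤
      (((P : ℝ) / 16) ^ 4 ^ j * 2 ^ 4 ^ j) *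
        (((2 * R.size + 1) ^ (4 * k * (k + 1)) : ℕ) : ℝ) := by
    calc _ = ((P : ℝ) / 16) ^ 4 ^ j * (2 ^ 4 ^ j * 2 ^ 4 ^ j) := by ring
      _ ≤ 2 ^ 4 ^ j * ((((2 * R.size + 1) ^ (4 * k * (k + 1)) : ℕ) : ℝ) *
        ((P : ℝ) / 16) ^ 4 ^ j) := h2
      _ = _ := by ring
  have h8 := le_of_mul_le_mul_left h7 (by positivity)
  exact_mod_cast h8

theorem exists_m (k : ℕ) : ∃ m : ℕ,
    (1 - 4 / (7 * ((8 * 4 ^ k : ℕ) : ℝ) ^ 4)) ^ m ≤ 1 / 64 := by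
  have h4k : 1 ≤ 4 ^ k := Nat.one_le_pow _ _ (by norm_num)
  have h1 : (1 : ℝ) ≤ ((8 * 4 ^ k : ℕ) : ℝ) := by
    have : 1 ≤ 8 * 4 ^ k := by omega
    exact_mod_cast this
  have h2 : (1 : ℝ) ≤ ((8 * 4 ^ k : ℕ) : ℝ) ^ 4 := one_le_pow₀ h1
  have h3 : (4 : ℝ) / (7 * ((8 * 4 ^ k : ℕ) : ℝ) ^ 4) ≤ 1 := by
    rw [div_le_one (by positivity)]
    linarith
  have h4 : (0 : ℝ) < 4 / (7 * ((8 * 4 ^ k : ℕ) : ℝ) ^ 4) := by positivity
  obtain ⟨m, hm⟩ := exists_pow_lt_of_lt_one (show (0 : ℝ) < 1 / 64 by norm_num)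
    (show 1 - 4 / (7 * ((8 * 4 ^ k : ℕ) : ℝ) ^ 4) < 1 by linarith)
  exact ⟨m, hm.le⟩

/-- **The hypergraphs.** -/
theorem exists_hyper2 (k : ℕ) : ∃ K : ℕ, 1 ≤ K ∧ ∀ j : ℕ, ∃ (V : Type) (_ : Fintype V)
    (_ : DecidableEq V) (H : Finset (Finset V)), Fintype.card V ≤ K * 4 ^ j ∧
    H.card + (Tr H).ncard ≤ 2 ^ (K * 2 ^ j) ∧
    ∀ (R : BProg V) (o : Fin R.size), ReadTimes R k o →
      (∀ S, R.Accepts S o ↔ IsTransversal H S) ∨ (∀ S, R.Accepts S o ↔ ¬ IsTransversal H S) →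
      2 ^ 4 ^ j ≤ (2 * R.size + 1) ^ (4 * k * (k + 1)) := by
  obtain ⟨m, hm⟩ := exists_m k
  obtain ⟨C1, hC, hC2⟩ : ∃ C1 : ℕ, 2 * (4 * m + 2) ^ 2 ≤ C1 ∧ 8 * 4 ^ k ≤ C1 :=
    ⟨_, le_max_left _ _, le_max_right _ _⟩
  obtain ⟨P, hP⟩ : ∃ P : ℕ, (2 * C1 + 4) ^ 2 * 64 ^ (2 * C1 + 4) ≤ P := ⟨_, le_rfl⟩
  have hP0 : 0 < P := by
    have : 0 < (2 * C1 + 4) ^ 2 * 64 ^ (2 * C1 + 4) := by positivity
    omega
  obtain ⟨K, hK1, hK2⟩ : ∃ K : ℕ, C1 + P ≤ K ∧ 1 + 4 * aN (Fin P) m ≤ K :=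
    ⟨_, le_max_left _ _, le_max_right _ _⟩
  refine ⟨K, by omega, fun j => ?_⟩
  obtain ⟨T, hT⟩ := size_ge2 k m C1 P hm hC hC2 hP j
  have hne : Nonempty (Fin P) := ⟨⟨0, hP0⟩⟩
  obtain ⟨H, h1, h2, h3⟩ := (FF_rep j T).hyper
  refine ⟨(Lf j × Fin C1) ⊕ Lf j × Fin P, inferInstance, inferInstance, H, ?_, ?_,
    fun R o hk hR => hT R o hk (hR.imp (fun h S => (h S).trans (h3 S).symm) fun h S =>
      (h S).trans (not_congr (h3 S).symm))⟩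
  · rw [Fintype.card_sum, Fintype.card_prod, Fintype.card_prod, card_Lf, Fintype.card_fin,
      Fintype.card_fin]
    calc 4 ^ j * C1 + 4 ^ j * P = (C1 + P) * 4 ^ j := by ring
      _ ≤ K * 4 ^ j := Nat.mul_le_mul_right _ hK1
  · have hTr : (Tr H).ncard ≤ (4 * aN (Fin P) m) ^ 2 ^ j := by
      have hfin : (Tr H).Finite := Set.toFinite _
      rw [← hfin.cast_ncard_eq] at h2
      exact_mod_cast h2
    have h4 : 4 * aN (Fin P) m ≤ 2 ^ (K - 1) :=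
      (Nat.lt_two_pow_self).le.trans (Nat.pow_le_pow_right (by norm_num) (by omega))
    have h5 : (4 * aN (Fin P) m) ^ 2 ^ j ≤ 2 ^ ((K - 1) * 2 ^ j) := by
      rw [pow_mul]
      exact Nat.pow_le_pow_left h4 _
    have h6 : 1 ≤ 2 ^ j := Nat.one_le_two_pow
    have h7 : 2 ^ ((K - 1) * 2 ^ j) * 2 ≤ 2 ^ (K * 2 ^ j) := by
      rw [← pow_succ]
      refine Nat.pow_le_pow_right (by norm_num) ?_
      obtain ⟨K', rfl⟩ : ∃ K', K = K' + 1 := ⟨K - 1, by omega⟩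
      rw [Nat.add_sub_cancel, add_mul]
      omega
    calc H.card + (Tr H).ncard ≤ 2 ^ ((K - 1) * 2 ^ j) + 2 ^ ((K - 1) * 2 ^ j) :=
          add_le_add (h1.trans h5) (hTr.trans h5)
      _ = 2 ^ ((K - 1) * 2 ^ j) * 2 := by ring
      _ ≤ _ := h7

end Pool.Agent.L5helper87.RK
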