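import Pool.Agent.L5helper87.RK.Split
import Pool.Agent.L5helper87.RK.Low
import Pool.Agent.L5helper87.RK.ExiB

/-!
# The hypergraphs and the bound for read-`k`-times programs, explicit in `k`
-/

set_option autoImplicit false
set_option linter.unusedSectionVars false

open Finset

namespace Pool.Agent.L5helper87.RK

open Pool.Agent.L5helper60.DN Pool.Agent.L5helper18.DD

/-- the lower bound for the good design -/
theorem size_ge3 (k m C1 P : ℕ) (hm : (1 - 4 / (7 * ((8 * 4 ^ k : ℕ) : ℝ) ^ 4)) ^ m ≤ 1 / 64)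
    (hC : 2 * (4 * m + 2) ^ 2 ≤ C1) (hC2 : 8 * 4 ^ k ≤ C1)
    (hP : 64 * (2 * C1 + 4) ≤ P) (j : ℕ) :
    ∃ T : Lf j → Fin P → Sl m → (Lf j × Fin C1),
      ∀ (R : BProg ((Lf j × Fin C1) ⊕ Lf j × Fin P)) (o : Fin R.size), ReadTimes R k o →
        (∀ S, R.Accepts S o ↔ FF j T S) ∨ (∀ S, R.Accepts S o ↔ ¬ FF j T S) →
          2 ^ 4 ^ j ≤ (2 * R.size + 1) ^ (4 * k * (k + 1)) := by
  classical
  have h4k : 1 ≤ 4 ^ k := Nat.one_le_pow _ _ (by norm_num)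
  obtain ⟨T, hT1, hT2⟩ := exists_design3 (8 * 4 ^ k) m C1 P (by omega) hm hC hP (Lf j)
  refine ⟨T, fun R o hk hR => ?_⟩
  have hcX : Fintype.card (Lf j × Fin C1) = 4 ^ j * C1 := by
    rw [Fintype.card_prod, card_Lf, Fintype.card_fin]
  have h4 : 1 ≤ 4 ^ j := Nat.one_le_pow _ _ (by norm_num)
  have hP0 : 0 < P := by omega
  have hP0' : (0 : ℝ) < P := by exact_mod_cast hP0
  have hk4 : k + 1 ≤ 4 ^ k := by
    have := Nat.lt_pow_self (n := k) (show 1 < 4 by norm_num)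
    omega
  set n := Fintype.card (Lf j × Fin C1) with hn
  have hn1 : 8 * 4 ^ k ≤ n := by
    rw [hcX]
    exact hC2.trans (Nat.le_mul_of_pos_left _ (by omega))
  have hdiv : 2 * (k + 1) * (n / (2 * (k + 1))) ≤ n := Nat.mul_div_le _ _
  have hdiv2 : n < 2 * (k + 1) * (n / (2 * (k + 1)) + 1) :=
    Nat.lt_mul_div_succ n (by omega)
  have hr : k * n ≤ 4 * k * (k + 1) * (n / (2 * (k + 1))) := by
    have e1 : n ≤ 4 * (k + 1) * (n / (2 * (k + 1))) := by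
      set q := n / (2 * (k + 1))
      nlinarith
    calc k * n ≤ k * (4 * (k + 1) * (n / (2 * (k + 1)))) := Nat.mul_le_mul_left _ e1
      _ = _ := by ring
  obtain ⟨A, B, g, h, a1, a2, a3, a4, a5, a6, a7, a8⟩ :=
    split R o k (4 * k * (k + 1)) (n / (2 * (k + 1))) hk hr hdiv hn1
  have hcE : Fintype.card (Fin (4 * k * (k + 1)) → Option (Fin R.size × Bool)) =
      (2 * R.size + 1) ^ (4 * k * (k + 1)) := by
    rw [Fintype.card_fun, Fintype.card_option, Fintype.card_prod, Fintype.card_fin,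
      Fintype.card_bool, Fintype.card_fin]
    ring
  have hlam : ∀ c, Inj T c → |lam T c fun S => ind (R.Accepts S o)| =
      4 ^ Fintype.card (Lf j × Fin m) := by
    intro c hc
    rcases hR with hR | hR
    · rw [show (fun S => ind (R.Accepts S o)) = fun S => ind (FF j T S) from
        funext fun S => ind_congr (hR S)]
      exact lam_FF j T c hc
    · rw [show (fun S => ind (R.Accepts S o)) = fun S => ind (¬ FF j T S) from
        funext fun S => ind_congr (hR S)]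
      exact lam_not j T c hc
  have h1 : (nInj T : ℝ) ≤ 2 ^ Fintype.card (Lf j) *
      (Fintype.card (Fin (4 * k * (k + 1)) → Option (Fin R.size × Bool)) *
        ((P : ℝ) / 16) ^ Fintype.card (Lf j)) :=
    count_le2 T (8 * 4 ^ k) (((P : ℝ) / 16) ^ Fintype.card (Lf j)) hT2 A B a1 a2 a3 g h a4 a5
      a6 a7 _ a8 hlam
  have h2 := hT1.trans h1
  rw [card_Lf, hcE] at h2
  have h3 : ((P : ℝ) / 4) ^ 4 ^ j = ((P : ℝ) / 16) ^ 4 ^ j * (2 ^ 4 ^ j * 2 ^ 4 ^ j) := by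
    rw [← mul_pow, ← mul_pow]
    congr 1
    ring
  rw [h3] at h2
  have h5 : (0 : ℝ) < ((P : ℝ) / 16) ^ 4 ^ j := by positivity
  have h6 : (0 : ℝ) < 2 ^ 4 ^ j := by positivity
  have h7 : (((P : ℝ) / 16) ^ 4 ^ j * 2 ^ 4 ^ j) * (2 : ℝ) ^ 4 ^ j ≤
      (((P : ℝ) / 16) ^ 4 ^ j * 2 ^ 4 ^ j) *
        (((2 * R.size + 1) ^ (4 * k * (k + 1)) : ℕ) : ℝ) := by
    calc _ = ((P : ℝ) / 16) ^ 4 ^ j * (2 ^ 4 ^ j * 2 ^ 4 ^ j) := by ring
      _ ≤ 2 ^ 4 ^ j * ((((2 * R.size + 1) ^ (4 * k * (k + 1)) : ℕ) : ℝ) *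
        ((P : ℝ) / 16) ^ 4 ^ j) := h2
      _ = _ := by ring
  have h8 := le_of_mul_le_mul_left h7 (by positivity)
  exact_mod_cast h8

/-- `m = 8 δ ^ 4` products suffice -/
theorem m_ok (δ : ℕ) (hδ : 1 ≤ δ) :
    (1 - 4 / (7 * (δ : ℝ) ^ 4)) ^ (8 * δ ^ 4) ≤ 1 / 64 := by
  have h1 : (1 : ℝ) ≤ δ := by exact_mod_cast hδ
  have h2 : (1 : ℝ) ≤ (δ : ℝ) ^ 4 := one_le_pow₀ h1
  set x : ℝ := 4 / (7 * (δ : ℝ) ^ 4) with hx
  have hx0 : 0 ≤ x := by positivity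
  have hx1 : x ≤ 1 := by
    rw [hx, div_le_one (by positivity)]
    linarith
  have h3 : 1 - x ≤ Real.exp (-x) := by
    have := Real.add_one_le_exp (-x)
    linarith
  calc (1 - x) ^ (8 * δ ^ 4) ≤ (Real.exp (-x)) ^ (8 * δ ^ 4) :=
        pow_le_pow_left₀ (by linarith) h3 _
    _ = Real.exp (-(32 / 7)) := by
        rw [← Real.exp_nat_mul]
        congr 1
        rw [hx]
        push_cast
        field_simp
        norm_num
    _ ≤ 1 / 64 := by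
        rw [Real.exp_neg, ← one_div]
        refine one_div_le_one_div_of_le (by norm_num) ?_
        have h4 : (64 : ℝ) ^ 2 ≤ Real.exp (9 / 2) ^ 2 := by
          have h6 : Real.exp (9 / 2) ^ 2 = Real.exp 1 ^ 9 := by
            rw [← Real.exp_nat_mul, ← Real.exp_nat_mul]
            congr 1
            norm_num
          rw [h6]
          calc (64 : ℝ) ^ 2 ≤ 2.7 ^ 9 := by norm_num
            _ ≤ Real.exp 1 ^ 9 := pow_le_pow_left₀ (by norm_num)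
                (le_trans (by norm_num) Real.exp_one_gt_d9.le) 9
        have h5 : (64 : ℝ) ≤ Real.exp (9 / 2) :=
          (pow_le_pow_iff_left₀ (by norm_num) (Real.exp_pos _).le two_ne_zero).1 h4
        exact h5.trans (Real.exp_le_exp.2 (by norm_num))

theorem hyper_gen (k m C1 P K1 K2 : ℕ)
    (hm : (1 - 4 / (7 * ((8 * 4 ^ k : ℕ) : ℝ) ^ 4)) ^ m ≤ 1 / 64)
    (hC : 2 * (4 * m + 2) ^ 2 ≤ C1) (hC2 : 8 * 4 ^ k ≤ C1)
    (hP : 64 * (2 * C1 + 4) ≤ P) (hK1 : C1 + P ≤ K1) (hK2 : 4 * aN (Fin P) m ≤ 2 ^ K2)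
    (hK2' : 1 ≤ K2) (j : ℕ) :
    ∃ (V : Type) (_ : Fintype V) (_ : DecidableEq V) (H : Finset (Finset V)),
    Fintype.card V ≤ K1 * 4 ^ j ∧ H.card + (Tr H).ncard ≤ 2 ^ (2 * K2 * 2 ^ j) ∧
    ∀ (R : BProg V) (o : Fin R.size), ReadTimes R k o →
      (∀ S, R.Accepts S o ↔ IsTransversal H S) ∨ (∀ S, R.Accepts S o ↔ ¬ IsTransversal H S) →
      2 ^ 4 ^ j ≤ (2 * R.size + 1) ^ (4 * k * (k + 1)) := by
  have hP0 : 0 < P := by omega
  obtain ⟨T, hT⟩ := size_ge3 k m C1 P hm hC hC2 hP j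
  have hne : Nonempty (Fin P) := ⟨⟨0, hP0⟩⟩
  obtain ⟨H, h1, h2, h3⟩ := (FF_rep j T).hyper
  refine ⟨(Lf j × Fin C1) ⊕ Lf j × Fin P, inferInstance, inferInstance, H, ?_, ?_,
    fun R o hk hR => hT R o hk (hR.imp (fun h S => (h S).trans (h3 S).symm) fun h S =>
      (h S).trans (not_congr (h3 S).symm))⟩
  · rw [Fintype.card_sum, Fintype.card_prod, Fintype.card_prod, card_Lf, Fintype.card_fin,
      Fintype.card_fin]
    calc 4 ^ j * C1 + 4 ^ j * P = (C1 + P) * 4 ^ j := by ring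
      _ ≤ _ := Nat.mul_le_mul_right _ hK1
  · have hTr : (Tr H).ncard ≤ (4 * aN (Fin P) m) ^ 2 ^ j := by
      have hfin : (Tr H).Finite := Set.toFinite _
      rw [← hfin.cast_ncard_eq] at h2
      exact_mod_cast h2
    have h5 : (4 * aN (Fin P) m) ^ 2 ^ j ≤ 2 ^ (K2 * 2 ^ j) := by
      rw [pow_mul]
      exact Nat.pow_le_pow_left hK2 _
    have h7 : 2 ^ (K2 * 2 ^ j) * 2 ≤ 2 ^ (2 * K2 * 2 ^ j) := by
      rw [← pow_succ]
      refine Nat.pow_le_pow_right (by norm_num) ?_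
      have e2 : 1 ≤ K2 * 2 ^ j := Nat.mul_pos hK2' (by positivity)
      have e3 : 2 * K2 * 2 ^ j = K2 * 2 ^ j + K2 * 2 ^ j := by ring
      omega
    calc H.card + (Tr H).ncard ≤ 2 ^ (K2 * 2 ^ j) + 2 ^ (K2 * 2 ^ j) :=
          add_le_add (h1.trans h5) (hTr.trans h5)
      _ = 2 ^ (K2 * 2 ^ j) * 2 := by ring
      _ ≤ _ := h7

theorem numbers (k : ℕ) : ∃ m C1 P : ℕ,
    (1 - 4 / (7 * ((8 * 4 ^ k : ℕ) : ℝ) ^ 4)) ^ m ≤ 1 / 64 ∧
    2 * (4 * m + 2) ^ 2 ≤ C1 ∧ 8 * 4 ^ k ≤ C1 ∧ 64 * (2 * C1 + 4) ≤ P ∧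
    C1 + P ≤ 2 ^ (16 * k + 46) ∧ 4 * aN (Fin P) m ≤ 2 ^ (2 ^ (8 * k + 18)) := by
  obtain ⟨a, ha⟩ : ∃ a, a = 2 ^ (2 * k) := ⟨_, rfl⟩
  have ha1 : 1 ≤ a := by rw [ha]; exact Nat.one_le_two_pow
  have ha4 : 4 ^ k = a := by rw [ha, pow_mul]; norm_num
  have e8 : 2 ^ (8 * k) = a ^ 4 := by rw [ha, ← pow_mul]; congr 1; ring
  have e16 : 2 ^ (16 * k) = a ^ 8 := by rw [ha, ← pow_mul]; congr 1; ring
  obtain ⟨b, hb⟩ : ∃ b, b = a ^ 4 := ⟨_, rfl⟩
  have hb1 : 1 ≤ b := by rw [hb]; exact Nat.one_le_pow _ _ ha1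
  have hab : a ≤ b := by rw [hb]; exact Nat.le_self_pow (by norm_num) a
  have hb8 : a ^ 8 = b ^ 2 := by rw [hb]; ring
  obtain ⟨m, hm⟩ : ∃ m, m = 32768 * b := ⟨_, rfl⟩
  have hmδ : m = 8 * (8 * 4 ^ k) ^ 4 := by rw [hm, ha4, hb]; ring
  obtain ⟨C1, hC1⟩ : ∃ C1, C1 = 2 * (4 * m + 2) ^ 2 := ⟨_, rfl⟩
  obtain ⟨P, hP⟩ : ∃ P, P = 64 * (2 * C1 + 4) := ⟨_, rfl⟩
  have h18 : 4 * m + 2 ≤ 262144 * b := by omega
  have hC1le : C1 ≤ 137438953472 * b ^ 2 := by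
    calc C1 ≤ 2 * (262144 * b) ^ 2 := by
          rw [hC1]; exact Nat.mul_le_mul_left _ (Nat.pow_le_pow_left h18 2)
      _ = 137438953472 * b ^ 2 := by ring
  have hC1ge : 72 ≤ C1 := by
    have : 6 ^ 2 ≤ (4 * m + 2) ^ 2 := Nat.pow_le_pow_left (by omega) 2
    omega
  have hPle : P ≤ 256 * C1 := by omega
  refine ⟨m, C1, P, ?_, hC1.ge, ?_, hP.ge, ?_, ?_⟩
  · rw [hmδ]
    exact m_ok (8 * 4 ^ k) (by omega)
  · have e2 : 4 * m + 2 ≤ (4 * m + 2) ^ 2 := Nat.le_self_pow (by norm_num) _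
    omega
  · have e1 : 2 ^ (16 * k + 46) = 70368744177664 * b ^ 2 := by
      rw [pow_add, e16, hb8]
      norm_num
      ring
    rw [e1]
    have : 0 < b ^ 2 := by positivity
    omega
  · unfold aN
    rw [Fintype.card_fin]
    have e1 : P ≤ 2 ^ (16 * k + 45) := by
      have e2 : 2 ^ (16 * k + 45) = 35184372088832 * b ^ 2 := by
        rw [pow_add, e16, hb8]
        norm_num
        ring
      rw [e2]
      omega
    have e3 : 4 * (P ^ 2 * 2 ^ (4 * m + 3)) ≤ 2 ^ (2 * (16 * k + 45) + (4 * m + 5)) := by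
      calc 4 * (P ^ 2 * 2 ^ (4 * m + 3)) ≤ 4 * ((2 ^ (16 * k + 45)) ^ 2 * 2 ^ (4 * m + 3)) :=
            Nat.mul_le_mul_left _ (Nat.mul_le_mul_right _ (Nat.pow_le_pow_left e1 2))
        _ = 2 ^ (2 * (16 * k + 45) + (4 * m + 5)) := by
            generalize 16 * k + 45 = u
            ring
    refine e3.trans (Nat.pow_le_pow_right (by norm_num) ?_)
    have e4 : 2 ^ (8 * k + 18) = 262144 * b := by
      rw [pow_add, e8, ← hb]
      norm_num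
      ring
    have e5 : 8 * k < b := by
      rw [hb, ← e8]
      exact Nat.lt_two_pow_self
    rw [e4]
    omega

/-- **The hypergraphs.** -/
theorem exists_hyper3 (k j : ℕ) : ∃ (V : Type) (_ : Fintype V)
    (_ : DecidableEq V) (H : Finset (Finset V)), Fintype.card V ≤ 2 ^ (16 * k + 46) * 4 ^ j ∧
    H.card + (Tr H).ncard ≤ 2 ^ (2 * 2 ^ (8 * k + 18) * 2 ^ j) ∧
    ∀ (R : BProg V) (o : Fin R.size), ReadTimes R k o →
      (∀ S, R.Accepts S o ↔ IsTransversal H S) ∨ (∀ S, R.Accepts S o ↔ ¬ IsTransversal H S) →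
      2 ^ 4 ^ j ≤ (2 * R.size + 1) ^ (4 * k * (k + 1)) := by
  obtain ⟨m, C1, P, h1, h2, h3, h4, h5, h6⟩ := numbers k
  exact hyper_gen k m C1 P _ _ h1 h2 h3 h4 h5 h6 (Nat.one_le_two_pow) j

end Pool.Agent.L5helper87.RK
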