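import Pool.Agent.L5helper87.RK.Des

/-!
# A moment bound for sums of few independent variables
-/

set_option autoImplicit false
set_option linter.unusedSectionVars false

open Finset

namespace Pool.Agent.L5helper87.RK

open Pool.Agent.L5helper60.DN

section

variable {TT Q : Type} [Fintype TT] [Fintype Q] [DecidableEq Q] [Nonempty TT]

theorem sum_image_pow (ν : ℝ) (hν : 0 ≤ ν) : ∀ k : ℕ,
    ∑ p : Fin k → Q, ν ^ (univ.image p).card ≤ (ν * Fintype.card Q + k) ^ k := by
  have key : ∀ k : ℕ, ∀ K : ℕ, k ≤ K →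
      ∑ p : Fin k → Q, ν ^ (univ.image p).card ≤ (ν * Fintype.card Q + K) ^ k := by
    intro k
    induction k with
    | zero =>
      intro K _
      simp
    | succ k ih =>
      intro K hK
      rw [← (Fin.consEquiv fun _ => Q).sum_comp, Fintype.sum_prod_type, Finset.sum_comm]
      have h1 : ∀ p : Fin k → Q, ∑ q : Q,
          ν ^ (univ.image ((Fin.consEquiv fun _ => Q) (q, p))).card ≤
          ν ^ (univ.image p).card * (ν * Fintype.card Q + K) := by
        intro p
        have h2 : ∀ q : Q, ν ^ (univ.image ((Fin.consEquiv fun _ => Q) (q, p))).card ≤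
            ν ^ (univ.image p).card * (ν + if q ∈ univ.image p then 1 else 0) := by
          intro q
          have h3 : univ.image ((Fin.consEquiv fun _ => Q) (q, p)) = insert q (univ.image p) := by
            ext x
            simp only [Fin.consEquiv, Equiv.coe_fn_mk, mem_image, mem_univ, true_and, mem_insert]
            constructor
            · rintro ⟨i, hi⟩
              rcases Fin.eq_zero_or_eq_succ i with rfl | ⟨i', rfl⟩
              · left
                simpa using hi.symm
              · right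
                exact ⟨i', by simpa using hi⟩
            · rintro (rfl | ⟨i, hi⟩)
              · exact ⟨0, by simp⟩
              · exact ⟨i.succ, by simpa using hi⟩
          rw [h3]
          by_cases hq : q ∈ univ.image p
          · rw [insert_eq_of_mem hq, if_pos hq]
            have : 0 ≤ ν ^ (univ.image p).card := pow_nonneg hν _
            nlinarith
          · rw [card_insert_of_notMem hq, if_neg hq, add_zero, pow_succ]
        refine (Finset.sum_le_sum fun q _ => h2 q).trans ?_
        rw [← Finset.mul_sum, Finset.sum_add_distrib, Finset.sum_const, card_univ, nsmul_eq_mul,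
          Finset.sum_ite_mem, Finset.univ_inter, Finset.sum_const, nsmul_eq_mul, mul_one]
        refine mul_le_mul_of_nonneg_left ?_ (pow_nonneg hν _)
        have h4 : (univ.image p).card ≤ K := by
          refine card_image_le.trans ?_
          rw [card_univ, Fintype.card_fin]
          omega
        have h5 : ((univ.image p).card : ℝ) ≤ K := by exact_mod_cast h4
        linarith
      refine (Finset.sum_le_sum fun p _ => h1 p).trans ?_
      rw [← Finset.sum_mul, pow_succ]
      exact mul_le_mul_of_nonneg_right (ih K (by omega)) (by positivity)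
  exact fun k => key k k le_rfl

theorem sum_image_prod (f : TT → ℝ) (R : Finset Q) :
    ∑ D : Q → TT, ∏ q ∈ R, f (D q) =
      (Fintype.card TT : ℝ) ^ Fintype.card Q * ((∑ τ, f τ) / Fintype.card TT) ^ R.card := by
  classical
  have hTT : (Fintype.card TT : ℝ) ≠ 0 := by
    exact_mod_cast Fintype.card_ne_zero
  have h1 : ∀ D : Q → TT, ∏ q ∈ R, f (D q) = ∏ q, if q ∈ R then f (D q) else 1 := by
    intro D
    rw [Finset.prod_ite_mem, Finset.univ_inter]
  rw [Finset.sum_congr rfl fun D _ => h1 D,
    sum_prod_pi (fun q τ => if q ∈ R then f τ else 1)]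
  have h2 : ∀ q, ∑ τ : TT, (if q ∈ R then f τ else 1) =
      if q ∈ R then ∑ τ, f τ else (Fintype.card TT : ℝ) := by
    intro q
    split_ifs
    · rfl
    · rw [Finset.sum_const, card_univ, nsmul_eq_mul, mul_one]
  rw [Finset.prod_congr rfl fun q _ => h2 q, prod_ite_pow R _ _ hTT]

/-- **the moment bound** -/
theorem moment3 (f : TT → ℝ) (h0 : ∀ τ, 0 ≤ f τ) (h1 : ∀ τ, f τ ≤ 1) (k : ℕ) (ν : ℝ)
    (hν : (∑ τ, f τ) / Fintype.card TT ≤ ν) :
    ∑ D : Q → TT, (∑ q, f (D q)) ^ k ≤ (Fintype.card TT : ℝ) ^ Fintype.card Q *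
      (ν * Fintype.card Q + k) ^ k := by
  classical
  have hTT : (0 : ℝ) < Fintype.card TT := by exact_mod_cast Fintype.card_pos
  have hm0 : 0 ≤ (∑ τ, f τ) / Fintype.card TT :=
    div_nonneg (Finset.sum_nonneg fun τ _ => h0 τ) hTT.le
  have hν0 : 0 ≤ ν := hm0.trans hν
  have hexp : ∑ D : Q → TT, (∑ q, f (D q)) ^ k =
      ∑ p : Fin k → Q, ∑ D : Q → TT, ∏ t, f (D (p t)) := by
    rw [Finset.sum_comm]
    exact Finset.sum_congr rfl fun D _ => Fintype.sum_pow (fun q => f (D q)) k
  have hpt : ∀ (p : Fin k → Q) (D : Q → TT), ∏ t, f (D (p t)) ≤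
      ∏ q ∈ univ.image p, f (D q) := by
    intro p D
    rw [Finset.prod_comp (fun q => f (D q)) p]
    refine Finset.prod_le_prod (fun q _ => pow_nonneg (h0 _) _) fun q hq => ?_
    obtain ⟨t, ht, htq⟩ := mem_image.1 hq
    have hc : 1 ≤ (univ.filter fun a => p a = q).card :=
      card_pos.2 ⟨t, mem_filter.2 ⟨ht, htq⟩⟩
    calc f (D q) ^ (univ.filter fun a => p a = q).card ≤ f (D q) ^ 1 :=
          pow_le_pow_of_le_one (h0 _) (h1 _) hc
      _ = f (D q) := pow_one _
  rw [hexp]
  calc ∑ p : Fin k → Q, ∑ D : Q → TT, ∏ t, f (D (p t))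
      ≤ ∑ p : Fin k → Q, ∑ D : Q → TT, ∏ q ∈ univ.image p, f (D q) :=
        Finset.sum_le_sum fun p _ => Finset.sum_le_sum fun D _ => hpt p D
    _ = ∑ p : Fin k → Q, (Fintype.card TT : ℝ) ^ Fintype.card Q *
          ((∑ τ, f τ) / Fintype.card TT) ^ (univ.image p).card :=
        Finset.sum_congr rfl fun p _ => sum_image_prod f _
    _ ≤ ∑ p : Fin k → Q, (Fintype.card TT : ℝ) ^ Fintype.card Q *
          ν ^ (univ.image p).card := Finset.sum_le_sum fun p _ =>
        mul_le_mul_of_nonneg_left (pow_le_pow_left₀ hm0 hν _) (by positivity)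
    _ = (Fintype.card TT : ℝ) ^ Fintype.card Q * ∑ p : Fin k → Q, ν ^ (univ.image p).card := by
        rw [Finset.mul_sum]
    _ ≤ _ := mul_le_mul_of_nonneg_left (sum_image_pow ν hν0 k) (by positivity)

/-- the moment bound with numbers -/
theorem moment3' (f : TT → ℝ) (h0 : ∀ τ, 0 ≤ f τ) (h1 : ∀ τ, f τ ≤ 1) (k : ℕ)
    (hν : (∑ τ, f τ) / Fintype.card TT ≤ 1 / 64) (hQ : 64 * k ≤ Fintype.card Q) :
    ∑ D : Q → TT, (∑ q, f (D q)) ^ k ≤ (Fintype.card TT : ℝ) ^ Fintype.card Q *
      ((Fintype.card Q : ℝ) / 32) ^ k := by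
  refine (moment3 f h0 h1 k (1 / 64) hν).trans ?_
  refine mul_le_mul_of_nonneg_left (pow_le_pow_left₀ (by positivity) ?_ k) (by positivity)
  have h2 : (64 : ℝ) * k ≤ Fintype.card Q := by exact_mod_cast hQ
  linarith

end

end Pool.Agent.L5helper87.RK
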