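import Pool.Agent.L5helper87.RK.Dec
import Pool.Agent.L5helper87.RR.Cover

/-!
# Each term of the decomposition is a product of two functions which do not see large sets
-/

set_option autoImplicit false
set_option linter.unusedSectionVars false

open Finset

namespace Pool.Agent.L5helper87.RK

open Pool.Agent.L5helper60.DN

theorem colourX (k : ℕ) (ι : Type) [Fintype ι] [DecidableEq ι] (X : Type) [Fintype X]
    [DecidableEq X] (Y : ι → Finset X) (hQ : 8 * 4 ^ k ≤ Fintype.card X)
    (hY : ∀ i, 2 * (k + 1) * (Y i).card ≤ Fintype.card X)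
    (hk : ∀ v, (univ.filter fun i => v ∈ Y i).card ≤ k) :
    ∃ (T : ι → Bool) (A B : Finset X), Disjoint A B ∧ Fintype.card X ≤ 8 * 4 ^ k * A.card ∧
      Fintype.card X ≤ 8 * 4 ^ k * B.card ∧
      (∀ v ∈ A, ∀ i, v ∈ Y i → T i = true) ∧ ∀ v ∈ B, ∀ i, v ∈ Y i → T i = false := by
  let e : X ≃ Fin (Fintype.card X) := Fintype.equivFin X
  obtain ⟨T, A, B, h1, h2, h3, h4, h5⟩ := RR.colour' k ι (Fintype.card X)
    (fun i => (Y i).map e.toEmbedding) hQ (fun i => by rw [card_map]; exact hY i)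
    (fun v => by
      have : (univ.filter fun i => v ∈ (Y i).map e.toEmbedding) =
          univ.filter fun i => e.symm v ∈ Y i := by
        ext i
        simp only [mem_filter, mem_univ, true_and, mem_map_equiv]
      rw [this]
      exact hk _)
  refine ⟨T, A.map e.symm.toEmbedding, B.map e.symm.toEmbedding, ?_, ?_, ?_, ?_, ?_⟩
  · rw [disjoint_map]
    exact h1
  · rw [card_map]
    exact h2
  · rw [card_map]
    exact h3
  · intro v hv i hi
    rw [mem_map_equiv] at hv
    exact h4 _ hv i (by rw [mem_map_equiv]; simpa using hi)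
  · intro v hv i hi
    rw [mem_map_equiv] at hv
    exact h5 _ hv i (by rw [mem_map_equiv]; simpa using hi)

variable {L Q X : Type} [Fintype L] [DecidableEq L] [Fintype Q] [DecidableEq Q] [Fintype X]
  [DecidableEq X]

/-- a product of numbers between 0 and 1 -/
theorem prod_unit {ι : Type} (s : Finset ι) (f : ι → ℝ) (h : ∀ i ∈ s, 0 ≤ f i ∧ f i ≤ 1) :
    0 ≤ ∏ i ∈ s, f i ∧ ∏ i ∈ s, f i ≤ 1 :=
  ⟨Finset.prod_nonneg fun i hi => (h i hi).1, Finset.prod_le_one (fun i hi => (h i hi).1)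
    fun i hi => (h i hi).2⟩

/-- **each term is a product of two functions which do not see large sets of data vertices** -/
theorem split (P : BProg (X ⊕ L × Q)) (o : Fin P.size) (k r θ : ℕ) (hk : ReadTimes P k o)
    (hr : k * Fintype.card X ≤ r * θ) (hθ : 2 * (k + 1) * θ ≤ Fintype.card X)
    (hn : 8 * 4 ^ k ≤ Fintype.card X) :
    ∃ (A B : (Fin r → Option (Fin P.size × Bool)) → Finset X)
      (g h : (Fin r → Option (Fin P.size × Bool)) → Finset (X ⊕ L × Q) → ℝ),
      (∀ e, Disjoint (A e) (B e)) ∧ (∀ e, Fintype.card X ≤ 8 * 4 ^ k * (A e).card) ∧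
      (∀ e, Fintype.card X ≤ 8 * 4 ^ k * (B e).card) ∧
      (∀ e S, |g e S| ≤ 1) ∧ (∀ e S, |h e S| ≤ 1) ∧
      (∀ e, ∀ S S' : Finset (X ⊕ L × Q),
        (∀ v, (∀ x ∈ B e, v ≠ Sum.inl x) → (v ∈ S ↔ v ∈ S')) → g e S = g e S') ∧
      (∀ e, ∀ S S' : Finset (X ⊕ L × Q),
        (∀ v, (∀ x ∈ A e, v ≠ Sum.inl x) → (v ∈ S ↔ v ∈ S')) → h e S = h e S') ∧
      ∀ S, ind (P.Accepts S o) = ∑ e, g e S * h e S := by
  classical
  set D : Finset (X ⊕ L × Q) := (univ : Finset X).map Function.Embedding.inl with hD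
  have hDc : D.card = Fintype.card X := by rw [hD, card_map, card_univ]
  have hDm : ∀ v, v ∈ D ↔ ∃ x, v = Sum.inl x := by
    intro v
    rw [hD]
    simp only [mem_map, mem_univ, true_and, Function.Embedding.inl_apply]
    exact ⟨fun ⟨x, h⟩ => ⟨x, h.symm⟩, fun ⟨x, h⟩ => ⟨x, h.symm⟩⟩
  obtain ⟨G, Z, Y, h1, h2, h3, h4, h5, h6, h7⟩ := decomp P o k r θ D hk (by rw [hDc]; exact hr)
  let Y' : (Fin r → Option (Fin P.size × Bool)) → Fin r → Finset X := fun e t =>
    univ.filter fun x => Sum.inl x ∈ Y e t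
  have hY' : ∀ e t, (Y' e t).card ≤ θ := by
    intro e t
    have e1 : ((Y' e t).map (Function.Embedding.inl : X ↪ X ⊕ L × Q)) ⊆ Y e t := by
      intro v hv
      rw [mem_map] at hv
      obtain ⟨x, hx, rfl⟩ := hv
      exact (mem_filter.1 hx).2
    have e2 := card_le_card e1
    rw [card_map] at e2
    exact e2.trans (h3 e t).2
  have hcol := fun e => colourX k (Fin r) X (Y' e) hn
    (fun t => (Nat.mul_le_mul_left _ (hY' e t)).trans hθ)
    (fun x => by
      refine le_trans (card_le_card ?_) (h4 e (Sum.inl x))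
      intro t ht
      rw [mem_filter] at ht ⊢
      exact ⟨mem_univ _, (mem_filter.1 ht.2).2⟩)
  choose T A B b1 b2 b3 b4 b5 using hcol
  refine ⟨A, B, fun e S => (∏ t ∈ univ.filter (fun t => T e t = true), G e t S) * Z e S,
    fun e S => ∏ t ∈ univ.filter (fun t => ¬ T e t = true), G e t S, b1, b2, b3, ?_, ?_, ?_, ?_,
    ?_⟩
  · intro e S
    obtain ⟨c1, c2⟩ := prod_unit (univ.filter (fun t => T e t = true)) (fun t => G e t S)
      fun t _ => h1 e t S
    obtain ⟨c3, c4⟩ := h2 e S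
    rw [abs_of_nonneg (mul_nonneg c1 c3)]
    exact mul_le_one₀ c2 c3 c4
  · intro e S
    obtain ⟨c1, c2⟩ := prod_unit (univ.filter (fun t => ¬ T e t = true)) (fun t => G e t S)
      fun t _ => h1 e t S
    rw [abs_of_nonneg c1]
    exact c2
  · intro e S S' hS
    have e1 : ∀ t ∈ univ.filter (fun t => T e t = true), G e t S = G e t S' := by
      intro t ht
      refine h5 e t S S' fun v hv => hS v ?_
      rintro x hx rfl
      have e2 := hv ((hDm _).2 ⟨x, rfl⟩)
      have e3 := b5 e x hx t (mem_filter.2 ⟨mem_univ _, e2⟩)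
      rw [(mem_filter.1 ht).2] at e3
      exact absurd e3 (by decide)
    have e2 : Z e S = Z e S' := h6 e S S' fun v hv => hS v fun x _ hvx =>
      hv ((hDm v).2 ⟨x, hvx⟩)
    show (∏ t ∈ univ.filter (fun t => T e t = true), G e t S) * Z e S = _
    rw [Finset.prod_congr rfl e1, e2]
  · intro e S S' hS
    refine Finset.prod_congr rfl fun t ht => ?_
    refine h5 e t S S' fun v hv => hS v ?_
    rintro x hx rfl
    have e2 := hv ((hDm _).2 ⟨x, rfl⟩)
    exact (mem_filter.1 ht).2 (b4 e x hx t (mem_filter.2 ⟨mem_univ _, e2⟩))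
  · intro S
    rw [h7]
    refine Finset.sum_congr rfl fun e _ => ?_
    rw [← Finset.prod_filter_mul_prod_filter_not univ (fun t => T e t = true)]
    ring

end Pool.Agent.L5helper87.RK
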