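import Pool.Agent.L5helper87.RK.WProg

/-!
# The decomposition for weighted nondeterministic programs, and the bound
-/

set_option autoImplicit false
set_option linter.unusedSectionVars false

open Finset

namespace Pool.Agent.L5helper87.RK

open Pool.Agent.L5helper60.DN Pool.Agent.L5helper18.DD

variable {V : Type} [DecidableEq V] [Fintype V]

noncomputable instance instFintypeArc (P : WProg V) : Fintype (Arc P) := by
  classical
  exact Subtype.fintype _

/-- the ways to cross a level -/
abbrev Cr (P : WProg V) : Type := Option (Fin P.size ⊕ Arc P)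

instance instInhabitedCr (P : WProg V) : Inhabited (Cr P) := ⟨none⟩

/-- the value which belongs to a way to cross the level -/
noncomputable def crv (P : WProg V) (D : Finset V) (c : ℕ) (i : Fin P.size) (S : Finset V) :
    Cr P → ℝ
  | none => 0
  | some (.inl w) => if c < wpot P D w then tr P S i w * P.stop w else 0
  | some (.inr a) => if c < wpot P D a.1.1 ∧ wpot P D a.1.2.2 ≤ c then
      tr P S i a.1.1 * (P.arc a.1.1 a.1.2.1 a.1.2.2 * ok S a.1.2.1) * P.val S a.1.2.2 else 0

theorem sum_crv (P : WProg V) (D : Finset V) (c : ℕ) (S : Finset V) (i : Fin P.size)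
    (hi : c < wpot P D i) : P.val S i = ∑ a, crv P D c i S a := by
  classical
  rw [cut P D c S i hi, Fintype.sum_option, Fintype.sum_sum_type]
  have h1 : ∑ a : Arc P, crv P D c i S (some (.inr a)) =
      ∑ a : Fin P.size × Option (V × Bool) × Fin P.size,
        if c < wpot P D a.1 ∧ wpot P D a.2.2 ≤ c then
          tr P S i a.1 * (P.arc a.1 a.2.1 a.2.2 * ok S a.2.1) * P.val S a.2.2 else 0 := by
    set F : Fin P.size × Option (V × Bool) × Fin P.size → ℝ := fun a =>
      if c < wpot P D a.1 ∧ wpot P D a.2.2 ≤ c then
          tr P S i a.1 * (P.arc a.1 a.2.1 a.2.2 * ok S a.2.1) * P.val S a.2.2 else 0 with hF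
    have h2 : ∑ a, F a = ∑ a ∈ univ.filter (fun a : Fin P.size × Option (V × Bool) × Fin P.size =>
        P.arc a.1 a.2.1 a.2.2 ≠ 0), F a := by
      refine (Finset.sum_filter_of_ne fun a _ ha => ?_).symm
      intro h
      apply ha
      rw [hF]
      simp only [h, zero_mul, mul_zero, ite_self]
    rw [h2]
    exact (Finset.sum_subtype _ (fun x => by simp) F).symm
  rw [h1, Fintype.sum_prod_type]
  show _ = 0 + (∑ w, (if c < wpot P D w then tr P S i w * P.stop w else 0) + _)
  rw [zero_add, ← Finset.sum_add_distrib]
  refine Finset.sum_congr rfl fun w _ => ?_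
  by_cases hw : c < wpot P D w
  · rw [if_pos hw, if_pos hw, ex, mul_add, Finset.mul_sum]
    congr 1
    rw [Fintype.sum_prod_type, Finset.sum_comm]
    refine Finset.sum_congr rfl fun j _ => ?_
    by_cases hj : wpot P D j ≤ c
    · rw [if_pos hj, step, Finset.sum_mul, Finset.mul_sum]
      refine Finset.sum_congr rfl fun l _ => ?_
      rw [if_pos ⟨hw, hj⟩]
      ring
    · rw [if_neg hj, mul_zero]
      symm
      exact Finset.sum_eq_zero fun l _ => if_neg fun h => hj h.2
  · rw [if_neg hw, if_neg hw, zero_add]
    symm
    exact Finset.sum_eq_zero fun a _ => if_neg fun h => hw h.1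

theorem wdecomp_aux (P : WProg V) (D : Finset V) (θ : ℕ) : ∀ (c : ℕ) (i : Fin P.size),
    wpot P D i ≤ c * θ →
      HasDecN (Cr P) D θ (fun v => if v ∈ D then wcnt P v i else 0) c (fun S => P.val S i) := by
  classical
  intro c
  induction c with
  | zero =>
    intro i hi
    have h0 : ∀ v ∈ D, wcnt P v i = 0 := by
      have : wpot P D i = 0 := by omega
      exact Finset.sum_eq_zero_iff.1 this
    refine ⟨fun _ t => t.elim0, fun _ S => P.val S i, fun _ t => t.elim0,
      fun _ t => t.elim0, fun _ S => val_nonneg _ _ _, fun _ t => t.elim0,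
      fun _ v => by simp, fun _ t => t.elim0, ?_, fun S => ?_⟩
    · intro _ S S' hS
      refine val_congr i fun x hx => hS x fun hD => ?_
      rw [h0 x hD] at hx
      omega
    · simp
  | succ c ih =>
    intro i hi
    have hzero : ∀ v : V, (if v ∈ (∅ : Finset V) then 1 else 0) + 0 ≤
        (if v ∈ D then wcnt P v i else 0) := fun v => by simp
    by_cases hlow : wpot P D i ≤ c * θ
    · -- the level has already been crossed
      refine combineN (fun a S => if a = none then P.val S i else 0) (fun a => ?_)
        (fun S => by simp)
      rcases a with _ | a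
      · exact ⟨_, fun _ => 1, ∅, _, ih i hlow, fun _ => zero_le_one,
          empty_subset _, by simp, fun v => by simp, fun _ _ _ => rfl, fun S => by simp⟩
      · exact ⟨_, fun _ => 1, ∅, _, hasDecN_zero _ D θ c, fun _ => zero_le_one,
          empty_subset _, by simp, hzero, fun _ _ _ => rfl, fun S => by simp⟩
    · push Not at hlow
      have htriv : ∀ a : Cr P, (∀ S, crv P D (c * θ) i S a = 0) →
          ∃ (f' G0 : Finset V → ℝ) (Y0 : Finset V) (μ' : V → ℕ), HasDecN (Cr P) D θ μ' c f' ∧
          (∀ S, 0 ≤ G0 S) ∧ Y0 ⊆ D ∧ Y0.card ≤ θ ∧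
          (∀ v, (if v ∈ Y0 then 1 else 0) + μ' v ≤ (if v ∈ D then wcnt P v i else 0)) ∧
          (∀ S S', (∀ v, (v ∈ D → v ∈ Y0) → (v ∈ S ↔ v ∈ S')) → G0 S = G0 S') ∧
          ∀ S, crv P D (c * θ) i S a = G0 S * f' S := fun a ha =>
        ⟨_, fun _ => 1, ∅, _, hasDecN_zero _ D θ c, fun _ => zero_le_one,
          empty_subset _, by simp, hzero, fun _ _ _ => rfl, fun S => by rw [ha]; simp⟩
      refine combineN (fun a S => crv P D (c * θ) i S a) (fun a => ?_)
        (fun S => sum_crv P D (c * θ) S i hlow)
      rcases a with _ | w | ⟨⟨w, l, j⟩, harc⟩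
      · exact htriv _ fun S => rfl
      · by_cases hw : c * θ < wpot P D w ∧ WWay P i w
        · obtain ⟨hw, hW⟩ := hw
          refine ⟨fun _ => 1, fun S => tr P S i w * P.stop w,
            D.filter (fun x => WOn P x i w), _,
            hasDecN_const (Cr P) D θ c (fun _ => 1) (fun _ => zero_le_one) (fun _ _ _ => rfl),
            fun S => mul_nonneg (tr_nonneg _ _ _ _) (P.stop_nonneg _), filter_subset _ _, ?_,
            fun x => ?_, fun S S' hS => ?_, fun S => ?_⟩
          · have h3 := hW.pot_add (D := D)
            have h4 : (c + 1) * θ = c * θ + θ := by ring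
            omega
          · by_cases hx : x ∈ D.filter (fun x => WOn P x i w)
            · rw [if_pos hx, if_pos (mem_filter.1 hx).1]
              have := (mem_filter.1 hx).2.cnt_lt
              omega
            · rw [if_neg hx]
              omega
          · show _ * _ = _ * _
            rw [tr_congr w i fun x hx => hS x fun hD => mem_filter.2 ⟨hD, hx⟩]
          · show (if _ then _ else _) = _
            rw [if_pos hw, mul_one]
        · refine htriv _ fun S => ?_
          show (if _ then _ else _) = _
          split_ifs with h
          · rw [tr_zero S w i fun hW => hw ⟨h, hW⟩, zero_mul]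
          · rfl
      · by_cases hw : (c * θ < wpot P D w ∧ wpot P D j ≤ c * θ) ∧ WWay P i w
        · obtain ⟨hwj, hW⟩ := hw
          obtain ⟨hw, hj⟩ := hwj
          set Y0 : Finset V := D.filter fun x => WOn P x i w ∨ ∃ b, l = some (x, b) with hY0
          have hcj := fun x => wcnt_arc harc x
          refine ⟨_, fun S => tr P S i w * (P.arc w l j * ok S l), Y0, _, ih j hj,
            fun S => mul_nonneg (tr_nonneg _ _ _ _)
              (mul_nonneg (P.arc_nonneg _ _ _) (ok_nonneg _ _)), filter_subset _ _, ?_,
            fun x => ?_, fun S S' hS => ?_, fun S => ?_⟩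
          · -- the number of the variables
            have h1 : Y0 ⊆ (D.filter fun x => WOn P x i w) ∪
                (univ.filter fun x => ∃ b, l = some (x, b)) := by
              intro x hx
              rw [hY0, mem_filter] at hx
              rw [mem_union, mem_filter, mem_filter]
              rcases hx.2 with h | h
              · exact Or.inl ⟨hx.1, h⟩
              · exact Or.inr ⟨mem_univ _, h⟩
            have h0 : (univ.filter fun x => ∃ b, l = some (x, b)).card ≤ 1 := by
              refine card_le_one.2 fun x hx y hy => ?_
              obtain ⟨b, hb⟩ := (mem_filter.1 hx).2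
              obtain ⟨b', hb'⟩ := (mem_filter.1 hy).2
              rw [hb] at hb'
              simp only [Option.some.injEq, Prod.mk.injEq] at hb'
              exact hb'.1
            have h2 := (card_le_card h1).trans (card_union_le _ _)
            have h3 := hW.pot_add (D := D)
            have h4 : (c + 1) * θ = c * θ + θ := by ring
            omega
          · -- multiplicities
            have h1 : wcnt P x j + (if ∃ b, l = some (x, b) then 1 else 0) ≤ wcnt P x w := hcj x
            have h2 := hW.cnt_le x
            by_cases hx : x ∈ D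
            · rw [if_pos hx, if_pos hx]
              by_cases hxY : x ∈ Y0
              · rw [if_pos hxY]
                rcases (mem_filter.1 hxY).2 with h | h
                · have := h.cnt_lt
                  omega
                · rw [if_pos h] at h1
                  omega
              · rw [if_neg hxY]
                omega
            · rw [if_neg hx, if_neg hx, if_neg fun h => hx (mem_filter.1 h).1]
          · have key : ∀ x, (WOn P x i w ∨ ∃ b, l = some (x, b)) → (x ∈ S ↔ x ∈ S') := fun x hx =>
              hS x fun hD => mem_filter.2 ⟨hD, hx⟩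
            show _ * (_ * _) = _ * (_ * _)
            rw [tr_congr w i fun x hx => key x (Or.inl hx),
              ok_congr (S := S) (S' := S') fun x b hxb => key x (Or.inr ⟨b, hxb⟩)]
          · show (if _ then _ else _) = _
            exact if_pos ⟨hw, hj⟩
        · refine htriv _ fun S => ?_
          show (if _ then _ else _) = _
          split_ifs with h
          · show tr P S i w * _ * _ = 0
            rw [tr_zero S w i fun hW => hw ⟨h, hW⟩, zero_mul, zero_mul]
          · rfl

/-- **the decomposition** of a weighted nondeterministic read-`k`-times program -/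
theorem wdecomp (P : WProg V) (o : Fin P.size) (k r θ : ℕ) (D : Finset V)
    (hk : WReadTimes P k o) (hr : k * D.card ≤ r * θ) :
    HasDecN (Cr P) D θ (fun _ => k) r (fun S => P.val S o) := by
  have h1 : wpot P D o ≤ r * θ := by
    refine le_trans ?_ hr
    unfold wpot
    calc ∑ v ∈ D, wcnt P v o ≤ ∑ _v ∈ D, k := Finset.sum_le_sum fun v _ => hk.cnt_le v
      _ = k * D.card := by rw [sum_const, smul_eq_mul, mul_comm]
  refine (wdecomp_aux P D θ r o h1).mono fun v => ?_
  split_ifs
  · exact hk.cnt_le v
  · exact Nat.zero_le _

theorem card_Cr (P : WProg V) : Fintype.card (Cr P) = P.size + Nat.card (Arc P) + 1 := by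
  rw [Fintype.card_option, Fintype.card_sum, Fintype.card_fin, Nat.card_eq_fintype_card]

end Pool.Agent.L5helper87.RK
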