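import Pool.Agent.L5helper60.DN.Fun

/-!
# Nondeterministic branching programs with nonnegative weights: definitions
-/

set_option autoImplicit false
set_option linter.unusedSectionVars false

open Finset

namespace Pool.Agent.L5helper87.RK

open Pool.Agent.L5helper60.DN

/-- Nondeterministic branching programs with nonnegative weights. `stop i` is the weight for
stopping at the node `i`; `arc i l j` is the weight of the arc from `i` to `j` with the label `l`
(weight `0`: there is no such arc), where the label `none` stands for a free move and `some (v, b)`
for the test whether `v ∈ S` has the truth value `b`. Arcs lead to nodes with smaller numbers. -/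
structure WProg (V : Type) where
  size : ℕ
  stop : Fin size → ℝ
  arc : Fin size → Option (V × Bool) → Fin size → ℝ
  stop_nonneg : ∀ i, 0 ≤ stop i
  arc_nonneg : ∀ i l j, 0 ≤ arc i l j
  lt : ∀ i l j, arc i l j ≠ 0 → j < i

/-- `1` if the label is satisfied by `S`, otherwise `0` -/
noncomputable def ok {V : Type} (S : Finset V) : Option (V × Bool) → ℝ
  | none => 1
  | some (v, b) => ind (v ∈ S ↔ b = true)

variable {V : Type}

/-- the list of the vertices tested on a path which starts at the node -/
inductive WPath (P : WProg V) : Fin P.size → List V → Prop
  | nil (i : Fin P.size) : WPath P i []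
  | free {i j : Fin P.size} {l : List V} (h : P.arc i none j ≠ 0) (hj : WPath P j l) :
      WPath P i l
  | test {i j : Fin P.size} {v : V} {b : Bool} {l : List V} (h : P.arc i (some (v, b)) j ≠ 0)
      (hj : WPath P j l) : WPath P i (v :: l)

/-- no path from the node `o` tests a vertex more than `k` times -/
def WReadTimes [DecidableEq V] (P : WProg V) (k : ℕ) (o : Fin P.size) : Prop :=
  ∀ l, WPath P o l → ∀ v, l.count v ≤ k

variable [DecidableEq V] [Fintype V]

/-- the total weight of the arcs from `i` to `j` whose labels are satisfied -/
noncomputable def step (P : WProg V) (S : Finset V) (i j : Fin P.size) : ℝ :=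
  ∑ l, P.arc i l j * ok S l

/-- the solution of the recursion which belongs to the program -/
noncomputable def sol (P : WProg V) (S : Finset V) (g : Fin P.size → ℝ) (i : Fin P.size) : ℝ :=
  g i + ∑ j : {j : Fin P.size // j < i}, step P S i j.1 * sol P S g j.1
termination_by i
decreasing_by exact j.2

/-- the value: the total weight of all computations on `S` which start at the node `i` -/
noncomputable def WProg.val (P : WProg V) (S : Finset V) (i : Fin P.size) : ℝ :=
  sol P S P.stop i

/-- the arcs of a program: the triples of a node, a label and a node with nonzero weight -/
def Arc {V : Type} (P : WProg V) : Type :=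
  {a : Fin P.size × Option (V × Bool) × Fin P.size // P.arc a.1 a.2.1 a.2.2 ≠ 0}

end Pool.Agent.L5helper87.RK
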