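import Pool.Agent.L5helper87.RK.WSplit
import Pool.Agent.L5helper87.RK.WDefs

/-!
# Cutting the computations of a weighted program at a level
-/

set_option autoImplicit false
set_option linter.unusedSectionVars false

open Finset

namespace Pool.Agent.L5helper87.RK

open Pool.Agent.L5helper60.DN

variable {V : Type} [DecidableEq V] [Fintype V]

theorem ok_nonneg (S : Finset V) (l : Option (V × Bool)) : 0 ≤ ok S l := by
  rcases l with _ | ⟨v, b⟩
  · exact zero_le_one
  · exact ind_nonneg _

theorem step_nonneg (P : WProg V) (S : Finset V) (i j : Fin P.size) : 0 ≤ step P S i j :=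
  Finset.sum_nonneg fun _ _ => mul_nonneg (P.arc_nonneg _ _ _) (ok_nonneg _ _)

theorem step_zero (P : WProg V) (S : Finset V) (i j : Fin P.size) (h : ¬ j < i) :
    step P S i j = 0 := by
  refine Finset.sum_eq_zero fun l _ => ?_
  have : P.arc i l j = 0 := by
    by_contra h'
    exact h (P.lt i l j h')
  rw [this, zero_mul]

theorem sol_eq (P : WProg V) (S : Finset V) (g : Fin P.size → ℝ) (i : Fin P.size) :
    sol P S g i = g i + ∑ j, step P S i j * sol P S g j := by
  rw [sol]
  congr 1
  have h : ∑ j, step P S i j * sol P S g j =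
      ∑ j ∈ univ.filter (fun j => j < i), step P S i j * sol P S g j := by
    refine (Finset.sum_filter_of_ne fun j _ hj => ?_).symm
    by_contra h
    exact hj (by rw [step_zero P S i j h, zero_mul])
  rw [h]
  exact (Finset.sum_subtype (univ.filter fun j => j < i) (fun x => by simp)
    (fun j => step P S i j * sol P S g j)).symm

/-- there is a path -/
inductive WWay (P : WProg V) : Fin P.size → Fin P.size → Prop
  | refl (i : Fin P.size) : WWay P i i
  | cons {i j w : Fin P.size} {l : Option (V × Bool)} (h : P.arc i l j ≠ 0) (hj : WWay P j w) :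
      WWay P i w

/-- `x` is tested on a path between the nodes -/
def WOn (P : WProg V) (x : V) (i w : Fin P.size) : Prop :=
  ∃ p b q, P.arc p (some (x, b)) q ≠ 0 ∧ WWay P i p ∧ WWay P q w

theorem WOn.cons {P : WProg V} {x : V} {i j w : Fin P.size} {l : Option (V × Bool)}
    (h : P.arc i l j ≠ 0) (hx : WOn P x j w) : WOn P x i w := by
  obtain ⟨p, b, q, h1, h2, h3⟩ := hx
  exact ⟨p, b, q, h1, .cons h h2, h3⟩

/-- the maximal number of tests of `v` on a path from the node `i` -/
noncomputable def wcnt (P : WProg V) (v : V) (i : Fin P.size) : ℕ :=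
  sSup {n | ∃ l, WPath P i l ∧ l.count v = n}

theorem wpath_length {P : WProg V} {i : Fin P.size} {l : List V} (h : WPath P i l) :
    l.length ≤ i.1 := by
  induction h with
  | nil i => exact Nat.zero_le _
  | free h _ ih =>
    have : _ < _ := P.lt _ _ _ h
    exact ih.trans (Fin.le_def.1 this.le)
  | test h _ ih =>
    have h1 : _ < _ := P.lt _ _ _ h
    have h2 := Fin.lt_def.1 h1
    rw [List.length_cons]
    omega

theorem wcnt_bdd (P : WProg V) (v : V) (i : Fin P.size) :
    BddAbove {n | ∃ l, WPath P i l ∧ l.count v = n} := by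
  refine ⟨i.1, ?_⟩
  rintro n ⟨l, h1, rfl⟩
  exact List.count_le_length.trans (wpath_length h1)

theorem le_wcnt {P : WProg V} (v : V) {i : Fin P.size} {l : List V} (h : WPath P i l) :
    l.count v ≤ wcnt P v i := le_csSup (wcnt_bdd P v i) ⟨l, h, rfl⟩

theorem exists_wpath (P : WProg V) (v : V) (i : Fin P.size) :
    ∃ l, WPath P i l ∧ l.count v = wcnt P v i := by
  have h : ({n | ∃ l, WPath P i l ∧ l.count v = n} : Set ℕ).Nonempty :=
    ⟨0, [], .nil i, rfl⟩
  exact Nat.sSup_mem h (wcnt_bdd P v i)

theorem WReadTimes.cnt_le {P : WProg V} {k : ℕ} {o : Fin P.size} (h : WReadTimes P k o) (v : V) :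
    wcnt P v o ≤ k := by
  obtain ⟨l, h1, h2⟩ := exists_wpath P v o
  rw [← h2]
  exact h l h1 v

theorem wcnt_arc {P : WProg V} {i j : Fin P.size} {l : Option (V × Bool)}
    (h : P.arc i l j ≠ 0) (v : V) :
    wcnt P v j + (if ∃ b, l = some (v, b) then 1 else 0) ≤ wcnt P v i := by
  obtain ⟨p, h1, h2⟩ := exists_wpath P v j
  rcases l with _ | ⟨w, b⟩
  · rw [if_neg (by simp), ← h2]
    exact le_wcnt v (.free h h1)
  · have h3 := le_wcnt v (.test h h1)
    rw [List.count_cons, h2] at h3
    by_cases hw : w = v
    · rw [if_pos (show ∃ b', some (w, b) = some (v, b') from ⟨b, by rw [hw]⟩)]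
      simpa [hw] using h3
    · rw [if_neg (by rintro ⟨b', hb⟩; simp only [Option.some.injEq, Prod.mk.injEq] at hb; exact hw hb.1)]
      omega

theorem WWay.cnt_le {P : WProg V} {i w : Fin P.size} (h : WWay P i w) (v : V) :
    wcnt P v w ≤ wcnt P v i := by
  induction h with
  | refl i => exact le_rfl
  | cons h _ ih => have := wcnt_arc h v; omega

theorem WOn.cnt_lt {P : WProg V} {i w : Fin P.size} {x : V} (h : WOn P x i w) :
    wcnt P x w + 1 ≤ wcnt P x i := by
  obtain ⟨p, b, q, h1, h2, h3⟩ := h
  have e1 := h2.cnt_le x
  have e2 := h3.cnt_le x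
  have e3 := wcnt_arc h1 x
  rw [if_pos ⟨b, rfl⟩] at e3
  omega

/-- the potential of a node -/
noncomputable def wpot (P : WProg V) (D : Finset V) (i : Fin P.size) : ℕ := ∑ v ∈ D, wcnt P v i

theorem WWay.pot_le {P : WProg V} {D : Finset V} {i w : Fin P.size} (h : WWay P i w) :
    wpot P D w ≤ wpot P D i := Finset.sum_le_sum fun v _ => h.cnt_le v

open Classical in
theorem WWay.pot_add {P : WProg V} {D : Finset V} {i w : Fin P.size} (h : WWay P i w) :
    wpot P D w + (D.filter fun x => WOn P x i w).card ≤ wpot P D i := by
  unfold wpot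
  rw [Finset.card_filter, ← Finset.sum_add_distrib]
  refine Finset.sum_le_sum fun x _ => ?_
  split_ifs with hx
  · exact hx.cnt_lt
  · exact h.cnt_le x

/-- the total weight of the paths between two nodes -/
noncomputable def tr (P : WProg V) (S : Finset V) (i w : Fin P.size) : ℝ :=
  sol P S (fun i => if i = w then 1 else 0) i

theorem tr_eq (P : WProg V) (S : Finset V) (i w : Fin P.size) :
    tr P S i w = (if i = w then 1 else 0) + ∑ j, step P S i j * tr P S j w := sol_eq P S _ i

theorem sol_nonneg (P : WProg V) (S : Finset V) (g : Fin P.size → ℝ) (hg : ∀ i, 0 ≤ g i) :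
    ∀ i, 0 ≤ sol P S g i := by
  intro i
  induction i using WellFoundedLT.induction with
  | ind i ih =>
    rw [sol_eq]
    refine add_nonneg (hg i) (Finset.sum_nonneg fun j _ => ?_)
    by_cases h : j < i
    · exact mul_nonneg (step_nonneg _ _ _ _) (ih j h)
    · rw [step_zero P S i j h, zero_mul]

theorem tr_nonneg (P : WProg V) (S : Finset V) (i w : Fin P.size) : 0 ≤ tr P S i w :=
  sol_nonneg P S _ (fun i => by split_ifs <;> norm_num) i

theorem val_nonneg (P : WProg V) (S : Finset V) (i : Fin P.size) : 0 ≤ P.val S i :=
  sol_nonneg P S _ P.stop_nonneg i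

theorem exists_arc {P : WProg V} {S : Finset V} {i j : Fin P.size} (h : step P S i j ≠ 0) :
    ∃ l, P.arc i l j ≠ 0 := by
  by_contra hcon
  push Not at hcon
  exact h (Finset.sum_eq_zero fun l _ => by rw [hcon l, zero_mul])

theorem tr_zero {P : WProg V} (S : Finset V) (w : Fin P.size) : ∀ i : Fin P.size,
    ¬ WWay P i w → tr P S i w = 0 := by
  intro i
  induction i using WellFoundedLT.induction with
  | ind i ih =>
    intro hi
    rw [tr_eq, if_neg (by rintro rfl; exact hi (.refl _)), zero_add]
    refine Finset.sum_eq_zero fun j _ => ?_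
    by_cases hs : step P S i j = 0
    · rw [hs, zero_mul]
    · obtain ⟨l, hl⟩ := exists_arc hs
      rw [ih j (P.lt i l j hl) fun hj => hi (.cons hl hj), mul_zero]

theorem ok_congr {S S' : Finset V} {l : Option (V × Bool)}
    (h : ∀ x b, l = some (x, b) → (x ∈ S ↔ x ∈ S')) : ok S l = ok S' l := by
  rcases l with _ | ⟨v, b⟩
  · rfl
  · exact ind_congr (by rw [h v b rfl])

/-- the weight of the paths depends on the vertices tested between the nodes only -/
theorem tr_congr {P : WProg V} {S S' : Finset V} (w : Fin P.size) : ∀ i : Fin P.size,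
    (∀ x, WOn P x i w → (x ∈ S ↔ x ∈ S')) → tr P S i w = tr P S' i w := by
  intro i
  induction i using WellFoundedLT.induction with
  | ind i ih =>
    intro hi
    rw [tr_eq, tr_eq]
    congr 1
    refine Finset.sum_congr rfl fun j _ => ?_
    by_cases hj : WWay P j w
    · have h1 : step P S i j = step P S' i j := by
        refine Finset.sum_congr rfl fun l _ => ?_
        by_cases hl : P.arc i l j = 0
        · rw [hl, zero_mul, zero_mul]
        · rw [ok_congr (S := S) (S' := S') fun x b hxb => hi x ?_]
          subst hxb
          exact ⟨i, b, j, hl, .refl i, hj⟩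
      rw [h1]
      by_cases hs : step P S' i j = 0
      · rw [hs, zero_mul, zero_mul]
      · obtain ⟨l, hl⟩ := exists_arc hs
        rw [ih j (P.lt i l j hl) fun x hx => hi x (hx.cons hl)]
    · rw [tr_zero S w j hj, tr_zero S' w j hj, mul_zero, mul_zero]

/-- the value of a node below which no element of `D` is tested -/
theorem val_congr {P : WProg V} {S S' : Finset V} : ∀ i : Fin P.size,
    (∀ x, 1 ≤ wcnt P x i → (x ∈ S ↔ x ∈ S')) → P.val S i = P.val S' i := by
  intro i
  induction i using WellFoundedLT.induction with
  | ind i ih =>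
    intro hi
    unfold WProg.val at ih ⊢
    rw [sol_eq, sol_eq P S']
    congr 1
    refine Finset.sum_congr rfl fun j _ => ?_
    have h1 : step P S i j = step P S' i j := by
      refine Finset.sum_congr rfl fun l _ => ?_
      by_cases hl : P.arc i l j = 0
      · rw [hl, zero_mul, zero_mul]
      · rw [ok_congr (S := S) (S' := S') fun x b hxb => hi x ?_]
        have := wcnt_arc hl x
        rw [if_pos ⟨b, hxb⟩] at this
        omega
    rw [h1]
    by_cases hs : step P S' i j = 0
    · rw [hs, zero_mul, zero_mul]
    · obtain ⟨l, hl⟩ := exists_arc hs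
      rw [ih j (P.lt i l j hl) fun x hx => hi x (by have := wcnt_arc hl x; omega)]

/-- the part of the value of a node which crosses the level `c` at once -/
noncomputable def ex (P : WProg V) (D : Finset V) (c : ℕ) (S : Finset V) (w : Fin P.size) : ℝ :=
  P.stop w + ∑ j, if wpot P D j ≤ c then step P S w j * P.val S j else 0

open Classical in
/-- **cutting at a level** -/
theorem cut (P : WProg V) (D : Finset V) (c : ℕ) (S : Finset V) : ∀ i : Fin P.size,
    c < wpot P D i → P.val S i =
      ∑ w, if c < wpot P D w then tr P S i w * ex P D c S w else 0 := by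
  intro i
  induction i using WellFoundedLT.induction with
  | ind i ih =>
    intro hi
    have h1 : P.val S i = ex P D c S i +
        ∑ j, if c < wpot P D j then step P S i j * P.val S j else 0 := by
      have h2 : P.val S i = P.stop i + ∑ j, step P S i j * P.val S j := sol_eq P S _ i
      rw [h2, ex, add_assoc, ← Finset.sum_add_distrib]
      congr 1
      refine Finset.sum_congr rfl fun j _ => ?_
      by_cases hj : wpot P D j ≤ c
      · rw [if_pos hj, if_neg (by omega), add_zero]
      · rw [if_neg hj, if_pos (by omega), zero_add]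
    have h3 : ∑ j, (if c < wpot P D j then step P S i j * P.val S j else 0) =
        ∑ j, step P S i j * ∑ w, if c < wpot P D w then tr P S j w * ex P D c S w else 0 := by
      refine Finset.sum_congr rfl fun j _ => ?_
      by_cases hj : c < wpot P D j
      · rw [if_pos hj]
        by_cases hji : j < i
        · rw [ih j hji hj]
        · rw [step_zero P S i j hji, zero_mul, zero_mul]
      · rw [if_neg hj]
        symm
        rw [Finset.sum_eq_zero, mul_zero]
        intro w _
        split_ifs with hw
        · rw [tr_zero S w j fun hjw => by have := hjw.pot_le (D := D); omega, zero_mul]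
        · rfl
    have h4 : ∀ w, (if c < wpot P D w then tr P S i w * ex P D c S w else 0) =
        (if i = w then ex P D c S w else 0) +
          ∑ j, step P S i j * (if c < wpot P D w then tr P S j w * ex P D c S w else 0) := by
      intro w
      by_cases hw : c < wpot P D w
      · simp only [if_pos hw]
        rw [tr_eq P S i w, add_mul, Finset.sum_mul]
        congr 1
        · split_ifs <;> ring
        · exact Finset.sum_congr rfl fun j _ => by ring
      · simp only [if_neg hw, mul_zero, Finset.sum_const_zero, add_zero]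
        rw [if_neg]
        rintro rfl
        exact hw hi
    rw [h1, h3, Finset.sum_congr rfl fun w _ => h4 w, Finset.sum_add_distrib]
    congr 1
    · rw [Finset.sum_ite_eq]
      simp
    · rw [Finset.sum_comm]
      exact Finset.sum_congr rfl fun j _ => by rw [Finset.mul_sum]

end Pool.Agent.L5helper87.RK
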