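import Pool.Agent.L5helper87.RK.HyperB

/-!
# The bound for sums of products of nonnegative functions of few data vertices
-/

set_option autoImplicit false
set_option linter.unusedSectionVars false

open Finset

namespace Pool.Agent.L5helper87.RK

open Pool.Agent.L5helper60.DN Pool.Agent.L5helper18.DD

section

variable {V : Type} [DecidableEq V] [Fintype V]

/-- `f` is a sum of products of `c` nonnegative functions, each of which sees at most `θ` elements of
`D`, an element `v` of `D` being seen by at most `μ v` of them -/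
def HasDecN (α : Type) [Fintype α] (D : Finset V) (θ : ℕ) (μ : V → ℕ) (c : ℕ)
    (f : Finset V → ℝ) : Prop :=
  ∃ (G : (Fin c → α) → Fin c → Finset V → ℝ) (Z : (Fin c → α) → Finset V → ℝ)
      (Y : (Fin c → α) → Fin c → Finset V),
      (∀ e t S, 0 ≤ G e t S) ∧ (∀ e S, 0 ≤ Z e S) ∧
      (∀ e t, Y e t ⊆ D ∧ (Y e t).card ≤ θ) ∧
      (∀ e v, (univ.filter fun t => v ∈ Y e t).card ≤ μ v) ∧
      (∀ e t S S', (∀ v, (v ∈ D → v ∈ Y e t) → (v ∈ S ↔ v ∈ S')) → G e t S = G e t S') ∧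
      (∀ e S S', (∀ v, v ∉ D → (v ∈ S ↔ v ∈ S')) → Z e S = Z e S') ∧
      ∀ S, f S = ∑ e, (∏ t, G e t S) * Z e S

theorem hasDecN_zero (α : Type) [Fintype α] (D : Finset V) (θ : ℕ) (c : ℕ) :
    HasDecN α D θ (fun _ => 0) c (fun _ => 0) := by
  refine ⟨fun _ _ _ => 1, fun _ _ => 0, fun _ _ => ∅, fun _ _ _ => zero_le_one,
    fun _ _ => le_rfl, fun _ _ => ⟨empty_subset _, by simp⟩, fun _ _ => by simp,
    fun _ _ _ _ _ => rfl, fun _ _ _ _ => rfl, fun S => by simp⟩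

/-- a function which does not see `D` -/
theorem hasDecN_const (α : Type) [Fintype α] [Inhabited α] (D : Finset V) (θ : ℕ) : ∀ (c : ℕ)
    (f : Finset V → ℝ), (∀ S, 0 ≤ f S) →
    (∀ S S', (∀ v, v ∉ D → (v ∈ S ↔ v ∈ S')) → f S = f S') →
    HasDecN α D θ (fun _ => 0) c f := by
  classical
  intro c f h0 h1
  refine ⟨fun _ _ _ => 1, fun e S => if e = (fun _ => default) then f S else 0, fun _ _ => ∅,
    fun _ _ _ => zero_le_one, fun e S => ?_, fun _ _ => ⟨empty_subset _, by simp⟩,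
    fun _ _ => by simp, fun _ _ _ _ _ => rfl, fun e S S' hS => ?_, fun S => ?_⟩
  · dsimp only
    split_ifs
    · exact h0 S
    · exact le_rfl
  · dsimp only
    rw [h1 S S' hS]
  · simp

theorem HasDecN.mono {α : Type} [Fintype α] {D : Finset V} {θ : ℕ} {μ μ' : V → ℕ} {c : ℕ}
    {f : Finset V → ℝ} (h : HasDecN α D θ μ c f) (hμ : ∀ v, μ v ≤ μ' v) :
    HasDecN α D θ μ' c f := by
  obtain ⟨G, Z, Y, h1, h2, h3, h4, h5, h6, h7⟩ := h
  exact ⟨G, Z, Y, h1, h2, h3, fun e v => (h4 e v).trans (hμ v), h5, h6, h7⟩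

theorem combineN {α : Type} [Fintype α] {D : Finset V} {θ : ℕ} {μ : V → ℕ} {c : ℕ}
    {f : Finset V → ℝ} (val : α → Finset V → ℝ)
    (h : ∀ a, ∃ (f' G0 : Finset V → ℝ) (Y0 : Finset V) (μ' : V → ℕ), HasDecN α D θ μ' c f' ∧
      (∀ S, 0 ≤ G0 S) ∧ Y0 ⊆ D ∧ Y0.card ≤ θ ∧
      (∀ v, (if v ∈ Y0 then 1 else 0) + μ' v ≤ μ v) ∧
      (∀ S S', (∀ v, (v ∈ D → v ∈ Y0) → (v ∈ S ↔ v ∈ S')) → G0 S = G0 S') ∧
      ∀ S, val a S = G0 S * f' S) (hf : ∀ S, f S = ∑ a, val a S) : HasDecN α D θ μ (c + 1) f := by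
  choose f' G0 Y0 μ' hdec hG0 hY0 hY0c hμ hG0i hval using h
  choose G Z Y h1 h2 h3 h4 h5 h6 h7 using hdec
  refine ⟨fun e => Fin.cons (G0 (e 0)) (G (e 0) (Fin.tail e)), fun e => Z (e 0) (Fin.tail e),
    fun e => Fin.cons (Y0 (e 0)) (Y (e 0) (Fin.tail e)), ?_, ?_, ?_, ?_, ?_, ?_, ?_⟩
  · intro e t S
    refine Fin.cases ?_ (fun t => ?_) t
    · simp only [Fin.cons_zero]
      exact hG0 _ S
    · simp only [Fin.cons_succ]
      exact h1 _ _ _ _
  · exact fun e S => h2 _ _ _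
  · intro e t
    refine Fin.cases ?_ (fun t => ?_) t
    · simp only [Fin.cons_zero]
      exact ⟨hY0 _, hY0c _⟩
    · simp only [Fin.cons_succ]
      exact h3 _ _ _
  · intro e v
    have := h4 (e 0) (Fin.tail e) v
    rw [Finset.card_filter] at this ⊢
    rw [Fin.sum_univ_succ]
    simp only [Fin.cons_zero, Fin.cons_succ]
    exact (Nat.add_le_add_left this _).trans (hμ (e 0) v)
  · intro e t S S' hS
    revert hS
    refine Fin.cases ?_ (fun t => ?_) t
    · simp only [Fin.cons_zero]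
      exact hG0i _ S S'
    · simp only [Fin.cons_succ]
      exact h5 _ _ _ _ _
  · exact fun e S S' hS => h6 _ _ _ _ hS
  · intro S
    rw [hf]
    rw [← (Fin.consEquiv fun _ => α).sum_comp, Fintype.sum_prod_type]
    refine Finset.sum_congr rfl fun a _ => ?_
    rw [hval, h7, Finset.mul_sum]
    refine Finset.sum_congr rfl fun e _ => ?_
    simp only [Fin.consEquiv, Equiv.coe_fn_mk, Fin.prod_univ_succ, Fin.cons_zero, Fin.cons_succ,
      Fin.tail_cons]
    ring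

end

section

variable {L Q X : Type} [Fintype L] [DecidableEq L] [Fintype Q] [DecidableEq Q] [Fintype X]
  [DecidableEq X]

/-- the data vertices -/
def dat (L Q X : Type) [Fintype X] [DecidableEq L] [DecidableEq Q] [DecidableEq X] :
    Finset (X ⊕ L × Q) := (univ : Finset X).map Function.Embedding.inl

theorem mem_dat {v : X ⊕ L × Q} : v ∈ dat L Q X ↔ ∃ x, v = Sum.inl x := by
  unfold dat
  simp only [mem_map, mem_univ, true_and, Function.Embedding.inl_apply]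
  exact ⟨fun ⟨x, h⟩ => ⟨x, h.symm⟩, fun ⟨x, h⟩ => ⟨x, h.symm⟩⟩

theorem card_dat : (dat L Q X).card = Fintype.card X := by
  unfold dat
  rw [card_map, card_univ]

/-- **each term is a product of two functions which do not see large sets of data vertices** -/
theorem splitN (α : Type) [Fintype α] (k r θ : ℕ) (f : Finset (X ⊕ L × Q) → ℝ)
    (hf : HasDecN α (dat L Q X) θ (fun _ => k) r f) (hθ : 2 * (k + 1) * θ ≤ Fintype.card X)
    (hn : 8 * 4 ^ k ≤ Fintype.card X) :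
    ∃ (A B : (Fin r → α) → Finset X) (g h : (Fin r → α) → Finset (X ⊕ L × Q) → ℝ),
      (∀ e, Disjoint (A e) (B e)) ∧ (∀ e, Fintype.card X ≤ 8 * 4 ^ k * (A e).card) ∧
      (∀ e, Fintype.card X ≤ 8 * 4 ^ k * (B e).card) ∧
      (∀ e S, 0 ≤ g e S) ∧ (∀ e S, 0 ≤ h e S) ∧
      (∀ e, ∀ S S' : Finset (X ⊕ L × Q),
        (∀ v, (∀ x ∈ B e, v ≠ Sum.inl x) → (v ∈ S ↔ v ∈ S')) → g e S = g e S') ∧
      (∀ e, ∀ S S' : Finset (X ⊕ L × Q),
        (∀ v, (∀ x ∈ A e, v ≠ Sum.inl x) → (v ∈ S ↔ v ∈ S')) → h e S = h e S') ∧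
      ∀ S, f S = ∑ e, g e S * h e S := by
  classical
  obtain ⟨G, Z, Y, h1, h2, h3, h4, h5, h6, h7⟩ := hf
  let Y' : (Fin r → α) → Fin r → Finset X := fun e t => univ.filter fun x => Sum.inl x ∈ Y e t
  have hY' : ∀ e t, (Y' e t).card ≤ θ := by
    intro e t
    have e1 : ((Y' e t).map (Function.Embedding.inl : X ↪ X ⊕ L × Q)) ⊆ Y e t := by
      intro v hv
      rw [mem_map] at hv
      obtain ⟨x, hx, rfl⟩ := hv
      exact (mem_filter.1 hx).2
    have e2 := card_le_card e1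
    rw [card_map] at e2
    exact e2.trans (h3 e t).2
  have hcol := fun e => colourX k (Fin r) X (Y' e) hn
    (fun t => (Nat.mul_le_mul_left _ (hY' e t)).trans hθ)
    (fun x => by
      refine le_trans (card_le_card ?_) (h4 e (Sum.inl x))
      intro t ht
      rw [mem_filter] at ht ⊢
      exact ⟨mem_univ _, (mem_filter.1 ht.2).2⟩)
  choose T A B b1 b2 b3 b4 b5 using hcol
  refine ⟨A, B, fun e S => (∏ t ∈ univ.filter (fun t => T e t = true), G e t S) * Z e S,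
    fun e S => ∏ t ∈ univ.filter (fun t => ¬ T e t = true), G e t S, b1, b2, b3, ?_, ?_, ?_, ?_,
    ?_⟩
  · exact fun e S => mul_nonneg (Finset.prod_nonneg fun t _ => h1 e t S) (h2 e S)
  · exact fun e S => Finset.prod_nonneg fun t _ => h1 e t S
  · intro e S S' hS
    have e1 : ∀ t ∈ univ.filter (fun t => T e t = true), G e t S = G e t S' := by
      intro t ht
      refine h5 e t S S' fun v hv => hS v ?_
      rintro x hx rfl
      have e2 := hv (mem_dat.2 ⟨x, rfl⟩)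
      have e3 := b5 e x hx t (mem_filter.2 ⟨mem_univ _, e2⟩)
      rw [(mem_filter.1 ht).2] at e3
      exact absurd e3 (by decide)
    have e2 : Z e S = Z e S' := h6 e S S' fun v hv => hS v fun x _ hvx =>
      hv (mem_dat.2 ⟨x, hvx⟩)
    show (∏ t ∈ univ.filter (fun t => T e t = true), G e t S) * Z e S = _
    rw [Finset.prod_congr rfl e1, e2]
  · intro e S S' hS
    refine Finset.prod_congr rfl fun t ht => ?_
    refine h5 e t S S' fun v hv => hS v ?_
    rintro x hx rfl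
    have e2 := hv (mem_dat.2 ⟨x, rfl⟩)
    exact (mem_filter.1 ht).2 (b4 e x hx t (mem_filter.2 ⟨mem_univ _, e2⟩))
  · intro S
    rw [h7]
    refine Finset.sum_congr rfl fun e _ => ?_
    rw [← Finset.prod_filter_mul_prod_filter_not univ (fun t => T e t = true)]
    ring

end

/-- **the lower bound for the good design**: a function which has such a decomposition -/
theorem dec_ge (k m C1 P : ℕ) (hm : (1 - 4 / (7 * ((8 * 4 ^ k : ℕ) : ℝ) ^ 4)) ^ m ≤ 1 / 64)
    (hC : 2 * (4 * m + 2) ^ 2 ≤ C1) (hC2 : 8 * 4 ^ k ≤ C1)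
    (hP : 64 * (2 * C1 + 4) ≤ P) (j : ℕ) :
    ∃ T : Lf j → Fin P → Sl m → (Lf j × Fin C1),
      ∀ (α : Type) [Fintype α] (r θ : ℕ) (f : Finset ((Lf j × Fin C1) ⊕ Lf j × Fin P) → ℝ),
        HasDecN α (dat (Lf j) (Fin P) (Lf j × Fin C1)) θ (fun _ => k) r f →
        2 * (k + 1) * θ ≤ 4 ^ j * C1 →
        (∀ S, f S = ind (FF j T S)) ∨ (∀ S, f S = ind (¬ FF j T S)) →
          2 ^ 4 ^ j ≤ Fintype.card α ^ r := by
  classical
  have h4k : 1 ≤ 4 ^ k := Nat.one_le_pow _ _ (by norm_num)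
  obtain ⟨T, hT1, hT2⟩ := exists_design3 (8 * 4 ^ k) m C1 P (by omega) hm hC hP (Lf j)
  refine ⟨T, fun α _ r θ f hdec hθ hR => ?_⟩
  have hcX : Fintype.card (Lf j × Fin C1) = 4 ^ j * C1 := by
    rw [Fintype.card_prod, card_Lf, Fintype.card_fin]
  have h4 : 1 ≤ 4 ^ j := Nat.one_le_pow _ _ (by norm_num)
  have hP0 : 0 < P := by omega
  have hP0' : (0 : ℝ) < P := by exact_mod_cast hP0
  have hn1 : 8 * 4 ^ k ≤ Fintype.card (Lf j × Fin C1) := by
    rw [hcX]
    exact hC2.trans (Nat.le_mul_of_pos_left _ (by omega))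
  obtain ⟨A, B, g, h, a1, a2, a3, a4, a5, a6, a7, a8⟩ :=
    splitN α k r θ f hdec (by rw [hcX]; exact hθ) hn1
  have hlam : ∀ c, Inj T c → |lam T c f| = 4 ^ Fintype.card (Lf j × Fin m) := by
    intro c hc
    rcases hR with hR | hR
    · rw [show f = fun S => ind (FF j T S) from funext hR]
      exact lam_FF j T c hc
    · rw [show f = fun S => ind (¬ FF j T S) from funext hR]
      exact lam_not j T c hc
  have hf1 : ∀ S, f S ≤ 1 := by
    intro S
    rcases hR with hR | hR <;> rw [hR S] <;> exact ind_le_one _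
  have h1 : (nInj T : ℝ) ≤ 2 ^ Fintype.card (Lf j) *
      (Fintype.card (Fin r → α) * ((P : ℝ) / 16) ^ Fintype.card (Lf j)) := by
    refine Pool.Agent.L5helper60.DN2.count2 T (((P : ℝ) / 16) ^ Fintype.card (Lf j))
      (fun e => (A e).map Function.Embedding.inl) (fun e => (B e).map Function.Embedding.inl)
      (fun e => (disjoint_map _).2 (a1 e)) g h a4 a5 (fun e => indep_of _ _ (a6 e))
      (fun e => indep_of _ _ (a7 e)) (fun e => ?_) f hf1 a8 hlam
    rw [pX_map, pX_map]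
    exact hT2 (A e) (B e) (a1 e) (a2 e) (a3 e)
  have h2 := hT1.trans h1
  rw [card_Lf] at h2
  have h3 : ((P : ℝ) / 4) ^ 4 ^ j = ((P : ℝ) / 16) ^ 4 ^ j * (2 ^ 4 ^ j * 2 ^ 4 ^ j) := by
    rw [← mul_pow, ← mul_pow]
    congr 1
    ring
  rw [h3] at h2
  have h5 : (0 : ℝ) < ((P : ℝ) / 16) ^ 4 ^ j := by positivity
  have h6 : (0 : ℝ) < 2 ^ 4 ^ j := by positivity
  have h7 : (((P : ℝ) / 16) ^ 4 ^ j * 2 ^ 4 ^ j) * (2 : ℝ) ^ 4 ^ j ≤
      (((P : ℝ) / 16) ^ 4 ^ j * 2 ^ 4 ^ j) * (Fintype.card (Fin r → α) : ℝ) := by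
    calc _ = ((P : ℝ) / 16) ^ 4 ^ j * (2 ^ 4 ^ j * 2 ^ 4 ^ j) := by ring
      _ ≤ 2 ^ 4 ^ j * ((Fintype.card (Fin r → α) : ℝ) * ((P : ℝ) / 16) ^ 4 ^ j) := h2
      _ = _ := by ring
  have h8 := le_of_mul_le_mul_left h7 (by positivity)
  have h9 : 2 ^ 4 ^ j ≤ Fintype.card (Fin r → α) := by exact_mod_cast h8
  rwa [Fintype.card_fun, Fintype.card_fin] at h9

end Pool.Agent.L5helper87.RK
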